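import Pool.Agent.Helper51.SigLeo.Det

/-!
Facts on `p`-adic logarithms of units of number fields.
-/

namespace Pool.Agent.Helper93.SL2

open NumberField Module
open Pool.Agent.Helper51.SigLeo

variable (p : ℕ) [hp : Fact p.Prime] {k : Type*} [NormedField k] [NormedAlgebra ℚ_[p] k]
  [IsUltrametricDist k]

include p

theorem norm_le_one_of_monic {x : k} (f : Polynomial ℤ) (hf : f.Monic)
    (hfx : f.eval₂ (Int.castRingHom k) x = 0) : ‖x‖ ≤ 1 := by
  by_contra hcon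
  push Not at hcon
  have hdeg : f.natDegree ≠ 0 := by
    intro h0
    have : f = 1 := Polynomial.eq_one_of_monic_natDegree_zero hf h0
    rw [this] at hfx
    simp at hfx
  rw [Polynomial.eval₂_eq_sum_range, Finset.sum_range_succ, hf.coeff_natDegree, map_one,
    one_mul] at hfx
  have h1 : x ^ f.natDegree = - ∑ i ∈ Finset.range f.natDegree,
      (Int.castRingHom k) (f.coeff i) * x ^ i := by
    linear_combination hfx
  have h2 : ‖∑ i ∈ Finset.range f.natDegree,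
      (Int.castRingHom k) (f.coeff i) * x ^ i‖ ≤ ‖x‖ ^ (f.natDegree - 1) := by
    apply IsUltrametricDist.norm_sum_le_of_forall_le_of_nonneg (by positivity)
    intro i hi
    rw [Finset.mem_range] at hi
    rw [norm_mul, norm_pow]
    have h3 : ‖(Int.castRingHom k) (f.coeff i)‖ ≤ 1 := by
      rw [eq_intCast, norm_intCast_eq p]
      exact_mod_cast Padic.norm_int_le_one (p := p) _
    calc ‖(Int.castRingHom k) (f.coeff i)‖ * ‖x‖ ^ i ≤ 1 * ‖x‖ ^ (f.natDegree - 1) := by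
          apply mul_le_mul h3 (pow_le_pow_right₀ hcon.le (by omega)) (by positivity) zero_le_one
      _ = _ := one_mul _
  have h4 : ‖x‖ ^ f.natDegree ≤ ‖x‖ ^ (f.natDegree - 1) := by
    rw [← norm_pow, h1, norm_neg]; exact h2
  have h5 : ‖x‖ ^ (f.natDegree - 1) < ‖x‖ ^ f.natDegree :=
    pow_lt_pow_right₀ hcon (by omega)
  linarith

theorem norm_embedding_le_one' {E : Type*} [Field E] (ψ : E →+* k) (x : E)
    (hx : IsIntegral ℤ x) : ‖ψ x‖ ≤ 1 := by
  obtain ⟨f, hf, hfx⟩ := hx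
  refine norm_le_one_of_monic p f hf ?_
  have := congrArg ψ hfx
  rw [Polynomial.hom_eval₂, map_zero] at this
  rwa [RingHom.ext_int (ψ.comp (algebraMap ℤ E)) (Int.castRingHom k)] at this

theorem norm_embedding_le_one {E : Type*} [Field E] (ψ : E →+* k) (x : 𝓞 E) :
    ‖ψ (x : E)‖ ≤ 1 :=
  norm_embedding_le_one' p ψ _ (RingOfIntegers.isIntegral_coe x)

omit [IsUltrametricDist k] in
theorem norm_p_pow_le (n : ℕ) : ‖((p : k)) ^ n‖ ≤ (1 / 2) ^ n := by
  rw [norm_pow]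
  apply pow_le_pow_left₀ (norm_nonneg _)
  rw [norm_natCast_eq p, Padic.norm_p]
  rw [one_div]
  apply inv_anti₀ (by norm_num)
  exact_mod_cast hp.out.two_le

/-- Some power of a unit is close to `1`. -/
theorem exists_pow_close {E : Type*} [Field E] [NumberField E] (ψ : E →+* k) (u : (𝓞 E)ˣ) :
    ∃ n : ℕ, 0 < n ∧ ‖(ψ ((u : 𝓞 E) : E)) ^ n - 1‖ ≤ 1 / 4 := by
  have hI : Ideal.span {((p : 𝓞 E)) ^ 2} ≠ ⊥ := by
    rw [Ne, Ideal.span_singleton_eq_bot]
    exact pow_ne_zero _ (by exact_mod_cast hp.out.ne_zero)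
  have hfin : Finite (𝓞 E ⧸ Ideal.span {((p : 𝓞 E)) ^ 2}) :=
    Ideal.finiteQuotientOfFreeOfNeBot _ hI
  let f : (𝓞 E)ˣ →* (𝓞 E ⧸ Ideal.span {((p : 𝓞 E)) ^ 2})ˣ :=
    Units.map (Ideal.Quotient.mk (Ideal.span {((p : 𝓞 E)) ^ 2}) : 𝓞 E →* _)
  obtain ⟨n, hn, hn1⟩ := isOfFinOrder_iff_pow_eq_one.1 (isOfFinOrder_of_finite (f u))
  refine ⟨n, hn, ?_⟩
  have h1 : Ideal.Quotient.mk (Ideal.span {((p : 𝓞 E)) ^ 2}) ((u : 𝓞 E) ^ n) =
      Ideal.Quotient.mk (Ideal.span {((p : 𝓞 E)) ^ 2}) 1 := by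
    have := congrArg Units.val hn1
    simpa [f] using this
  rw [Ideal.Quotient.eq, Ideal.mem_span_singleton'] at h1
  obtain ⟨ρ, hρ⟩ := h1
  have h2 : (ψ ((u : 𝓞 E) : E)) ^ n - 1 = ψ (ρ : E) * (p : k) ^ 2 := by
    have := congrArg (fun x : 𝓞 E => ψ (algebraMap (𝓞 E) E x)) hρ
    simp only [map_mul, map_pow, map_sub, map_one, map_natCast] at this
    exact this.symm
  rw [h2, norm_mul]
  have h3 := norm_embedding_le_one p ψ ρ
  have h4 := norm_p_pow_le p (k := k) 2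
  calc ‖ψ (ρ : E)‖ * ‖(p : k) ^ 2‖ ≤ 1 * (1 / 2) ^ 2 :=
        mul_le_mul h3 h4 (norm_nonneg _) zero_le_one
    _ = 1 / 4 := by norm_num

omit [hp : Fact p.Prime] [NormedAlgebra ℚ_[p] k] [IsUltrametricDist k] in
theorem toFun_pow (L : IwasawaLog p k) (U : kˣ) (n : ℕ) :
    L.toFun (U ^ n) = n * L.toFun U := by
  induction n with
  | zero =>
    have h := L.map_mul 1 1
    rw [mul_one] at h
    rw [pow_zero, Nat.cast_zero, zero_mul]
    linear_combination -h
  | succ n ih =>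
    rw [pow_succ, L.map_mul, ih]
    push_cast
    ring

omit [hp : Fact p.Prime] [NormedAlgebra ℚ_[p] k] [IsUltrametricDist k] in
theorem toFun_inv (L : IwasawaLog p k) (U : kˣ) :
    L.toFun U⁻¹ = -L.toFun U := by
  have h := L.map_mul 1 1
  rw [mul_one] at h
  have h2 := L.map_mul U U⁻¹
  rw [mul_inv_cancel] at h2
  linear_combination -h - h2

/-- The logarithm of a unit of infinite order does not vanish. -/
theorem log_unit_ne_zero (L : IwasawaLog p k)
    {E : Type*} [Field E] [NumberField E] (ψ : E →+* k) (u : (𝓞 E)ˣ)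
    (hu : ∀ n : ℕ, 0 < n → u ^ n ≠ 1) (U : kˣ) (hU : (U : k) = ψ ((u : 𝓞 E) : E)) :
    L.toFun U ≠ 0 := by
  obtain ⟨n, hn, hclose⟩ := exists_pow_close p ψ u
  intro h0
  have h1 : L.toFun (U ^ n) = 0 := by
    rw [toFun_pow, h0, mul_zero]
  refine Pool.Agent.Helper51.SigLeo.log_ne_zero L (U ^ n) ?_ ?_ h1
  · intro h
    apply hu n hn
    rw [Units.val_pow_eq_pow_val, hU, ← map_pow, ← map_one ψ] at h
    have h2 := ψ.injective h
    apply Units.ext
    apply RingOfIntegers.coe_injective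
    simpa using h2
  · rw [Units.val_pow_eq_pow_val, hU]
    exact hclose

/-- Iwasawa's logarithm is determined on the units of number fields. -/
theorem log_unique (L L' : IwasawaLog p k)
    {E : Type*} [Field E] [NumberField E] (ψ : E →+* k) (u : (𝓞 E)ˣ)
    (U : kˣ) (hU : (U : k) = ψ ((u : 𝓞 E) : E)) :
    L.toFun U = L'.toFun U := by
  have hchar : CharZero k := charZero_of_padic p
  obtain ⟨n, hn, hclose⟩ := exists_pow_close p ψ u
  have hc : ‖((U ^ n : kˣ) : k) - 1‖ < 1 := by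
    rw [Units.val_pow_eq_pow_val, hU]
    linarith
  have h1 := (L.hasSum (U ^ n) hc).unique (L'.hasSum (U ^ n) hc)
  rw [toFun_pow, toFun_pow] at h1
  have hn0 : (n : k) ≠ 0 := by exact_mod_cast hn.ne'
  exact mul_left_cancel₀ hn0 h1

/-- The local estimate: for `e ^ 2 = 4 g (1 + g)` the logarithm of `1 + 2 g + e` is close to
`e`. -/
theorem log_near (L : IwasawaLog p k) {g e : k} {w : kˣ} {m : ℝ} (he : e ^ 2 = 4 * g * (1 + g))
    (hw : (w : k) = 1 + 2 * g + e) (hg0 : g ≠ 0) (hgm : ‖g‖ ≤ m) (hm : m ≤ 1 / 4) :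
    ∃ ε : k, L.toFun w = e * (1 + ε) ∧ ‖ε‖ ≤ 3 * m := by
  have hchar : CharZero k := charZero_of_padic p
  have h2 := norm_two_ge p (k := k)
  have h2' := norm_two_le p (k := k)
  have h1g : ‖1 + g‖ = 1 := by
    rw [norm_add_eq_of_lt, norm_one]
    rw [norm_one]; linarith
  have h4 : ‖(4 : k)‖ = ‖(2 : k)‖ ^ 2 := by
    rw [← norm_pow]; norm_num
  have he2 : ‖e‖ ^ 2 = ‖(2 : k)‖ ^ 2 * ‖g‖ := by
    rw [← norm_pow, he, norm_mul, norm_mul, h1g, mul_one, h4]
  have hgpos : 0 < ‖g‖ := norm_pos_iff.mpr hg0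
  have h2pos : 0 < ‖(2 : k)‖ := by linarith
  have he0 : e ≠ 0 := by
    rintro rfl
    rw [norm_zero] at he2
    have : 0 < ‖(2 : k)‖ ^ 2 * ‖g‖ := by positivity
    nlinarith
  have hepos : 0 < ‖e‖ := norm_pos_iff.mpr he0
  have hem : ‖e‖ ^ 2 ≤ m := by
    rw [he2]
    have : ‖(2 : k)‖ ^ 2 ≤ 1 := by nlinarith
    nlinarith
  have h2g : ‖2 * g‖ ≤ ‖e‖ := by
    have : ‖2 * g‖ ^ 2 ≤ ‖e‖ ^ 2 := by
      rw [norm_mul, mul_pow, he2]
      apply mul_le_mul_of_nonneg_left _ (by positivity)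
      nlinarith
    exact le_of_sq_le_sq this hepos.le
  have hehalf : ‖e‖ ≤ 1 / 2 := by
    by_contra hcon
    push Not at hcon
    nlinarith
  have hw1 : ‖(w : k) - 1‖ ≤ ‖e‖ := by
    have : (w : k) - 1 = 2 * g + e := by rw [hw]; ring
    rw [this]
    exact (norm_add_le_max' _ _).trans (max_le h2g le_rfl)
  have hwi : ((w⁻¹ : kˣ) : k) = 1 + 2 * g - e := by
    rw [Units.val_inv_eq_inv_val, hw]
    apply inv_eq_of_mul_eq_one_left
    linear_combination -he
  have hest := L.norm_sub_le w (hw1.trans hehalf)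
  have hw2 : ((w : k) - ((w⁻¹ : kˣ) : k)) / 2 = e := by
    rw [hwi, hw]; ring
  rw [hw2] at hest
  refine ⟨L.toFun w / e - 1, ?_, ?_⟩
  · field_simp; ring
  · have h8 : L.toFun w / e - 1 = (L.toFun w - e) / e := by field_simp
    rw [h8, norm_div, div_le_iff₀ hepos]
    calc ‖L.toFun w - e‖ ≤ 3 * ‖(w : k) - 1‖ ^ 3 := hest
      _ ≤ 3 * ‖e‖ ^ 3 := by
        have := pow_le_pow_left₀ (norm_nonneg _) hw1 3
        linarith
      _ = 3 * ‖e‖ ^ 2 * ‖e‖ := by ring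
      _ ≤ 3 * m * ‖e‖ := by
        apply mul_le_mul_of_nonneg_right _ hepos.le
        linarith

end Pool.Agent.Helper93.SL2
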