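import Pool.Agent.Helper93.SL2.Gamma

/-!
The choice of the discriminant.
-/

namespace Pool.Agent.Helper93.SL2

open NumberField Module

theorem exists_prime_avoiding {F : Type*} [Field F] [NumberField F] (M : ℕ) (hM : 0 < M)
    (T : Finset (𝓞 F)) (hT : ∀ d ∈ T, d ≠ 0) :
    ∃ (ℓ : ℕ) (P : Ideal (𝓞 F)), ℓ.Prime ∧ Nat.Coprime M ℓ ∧ P.IsPrime ∧ (ℓ : 𝓞 F) ∈ P ∧
      ∀ d ∈ T, d ∉ P := by
  classical
  have hpos : ∀ d ∈ T, 0 < Ideal.absNorm (Ideal.span {d}) := by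
    intro d hd
    rw [Nat.pos_iff_ne_zero, Ne, Ideal.absNorm_eq_zero_iff, Ideal.span_singleton_eq_bot]
    exact hT d hd
  have hprod : 0 < ∏ d ∈ T, Ideal.absNorm (Ideal.span {d}) := Finset.prod_pos hpos
  obtain ⟨ℓ, hℓ, hℓp⟩ := Nat.exists_infinite_primes
    (M * ∏ d ∈ T, Ideal.absNorm (Ideal.span {d}) + 1)
  have hlt : M * ∏ d ∈ T, Ideal.absNorm (Ideal.span {d}) < ℓ := hℓ
  have hndvd : ∀ m : ℕ, m ∣ M * ∏ d ∈ T, Ideal.absNorm (Ideal.span {d}) → Nat.Coprime m ℓ := by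
    intro m hm
    rw [Nat.coprime_comm, hℓp.coprime_iff_not_dvd]
    intro hdvd
    have h1 := Nat.le_of_dvd (Nat.mul_pos hM hprod) (hdvd.trans hm)
    omega
  have hprime : (Ideal.span {(ℓ : ℤ)}).IsPrime := by
    rw [Ideal.span_singleton_prime (by exact_mod_cast hℓp.ne_zero)]
    exact Nat.prime_iff_prime_int.1 hℓp
  obtain ⟨P, hP, hcomap⟩ := Ideal.exists_ideal_over_prime_of_isIntegral_of_isDomain
    (S := 𝓞 F) (Ideal.span {(ℓ : ℤ)})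
    (by rw [(RingHom.injective_iff_ker_eq_bot _).1
      (FaithfulSMul.algebraMap_injective ℤ (𝓞 F))]; exact bot_le)
  have hℓP : (ℓ : 𝓞 F) ∈ P := by
    have h1 : (ℓ : ℤ) ∈ P.comap (algebraMap ℤ (𝓞 F)) := by
      rw [hcomap]; exact Ideal.mem_span_singleton_self _
    simpa using h1
  refine ⟨ℓ, P, hℓp, hndvd M (dvd_mul_right _ _), hP, hℓP, ?_⟩
  intro d hd hdP
  have h1 : ((Ideal.absNorm (Ideal.span {d}) : ℕ) : 𝓞 F) ∈ P := by
    have h2 := Ideal.absNorm_mem (Ideal.span {d})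
    exact (Ideal.span_singleton_le_iff_mem P).2 hdP h2
  have hcop : Nat.Coprime (Ideal.absNorm (Ideal.span {d})) ℓ :=
    hndvd _ ((Finset.dvd_prod_of_mem (fun d => Ideal.absNorm (Ideal.span {d})) hd).trans
      (dvd_mul_left _ _))
  have h3 : IsCoprime ((Ideal.absNorm (Ideal.span {d}) : ℕ) : ℤ) (ℓ : ℤ) :=
    Nat.isCoprime_iff_coprime.2 hcop
  obtain ⟨a, b, hab⟩ := h3
  apply hP.ne_top
  rw [Ideal.eq_top_iff_one]
  have h4 : (1 : 𝓞 F) = (a : 𝓞 F) * ((Ideal.absNorm (Ideal.span {d}) : ℕ) : 𝓞 F) +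
      (b : 𝓞 F) * (ℓ : 𝓞 F) := by
    have := congrArg (fun z : ℤ => (z : 𝓞 F)) hab
    push_cast at this
    exact this.symm
  rw [h4]
  exact P.add_mem (P.mul_mem_left _ h1) (P.mul_mem_left _ hℓP)

theorem exists_datum {F : Type*} [Field F] [NumberField F] (hF : NumberField.IsTotallyReal F)
    (hd : finrank ℚ F = 2) (σ₁ σ₂ : F →+* ℝ) (A : 𝓞 F) (h₁ : 0 < σ₁ (A : F))
    (h₂ : σ₂ (A : F) < 0) (Q n : ℕ) (hQ : 0 < Q) (T : Finset (𝓞 F)) (hT : ∀ d ∈ T, d ≠ 0) :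
    ∃ c γ κ κ' : 𝓞 F, 4 * c = ((2 * (Q : 𝓞 F)) ^ (n + 2)) ^ 2 * A ∧
      γ * (1 + c * γ) = 1 + (2 * (Q : 𝓞 F)) ^ (n + 2) * κ ∧
      c * γ = (2 * (Q : 𝓞 F)) ^ (n + 2) * κ' ∧ c * γ ≠ 0 ∧
      (∀ σ : F →+* ℝ, σ ((γ * (1 + c * γ) : 𝓞 F) : F) < 0) ∧
      ∀ d ∈ T, ∀ q : F, q ^ 2 ≠ ((γ * (1 + c * γ) * d : 𝓞 F) : F) := by
  have hne : σ₁ ≠ σ₂ := by
    rintro rfl
    linarith
  set M : ℕ := 4 * (2 * Q) ^ (n + 2) with hM
  have hM0 : 0 < M := by positivity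
  obtain ⟨ℓ, P, hℓ, hcop, hP, hℓP, hTP⟩ := exists_prime_avoiding M hM0 T hT
  set c : 𝓞 F := 4 ^ (n + 1) * (Q : 𝓞 F) ^ (2 * (n + 2)) * A with hc
  have hcF : (c : F) = 4 ^ (n + 1) * (Q : F) ^ (2 * (n + 2)) * (A : F) := by
    change algebraMap (𝓞 F) F c = _
    rw [hc]
    simp only [map_mul, map_pow, map_ofNat, map_natCast]
  have hσc : ∀ σ : F →+* ℝ, σ (c : F) = 4 ^ (n + 1) * (Q : ℝ) ^ (2 * (n + 2)) * σ (A : F) := by
    intro σ
    rw [hcF]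
    simp only [map_mul, map_pow, map_ofNat, map_natCast]
  have hQR : (0 : ℝ) < Q := by exact_mod_cast hQ
  have hc1 : 0 < σ₁ (c : F) := by rw [hσc]; positivity
  have hc2 : σ₂ (c : F) < 0 := by
    rw [hσc]; exact mul_neg_of_pos_of_neg (by positivity) h₂
  obtain ⟨γ, ρ, hγ, hγP, hγP2, hγ1, hγ2, hγ3⟩ := exists_gamma hF hd σ₁ σ₂ hne M ℓ hM0 hℓ hcop P hP
    hℓP (1 / σ₁ (c : F)) (by positivity)
  have hγ0 : γ ≠ 0 := by
    rintro rfl
    simp at hγ2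
  have hc0 : c ≠ 0 := by
    intro h
    rw [h] at hc1
    simp at hc1
  have hD : ∀ σ : F →+* ℝ, σ ((γ * (1 + c * γ) : 𝓞 F) : F) =
      σ (γ : F) * (1 + σ (c : F) * σ (γ : F)) := by
    intro σ
    change σ (algebraMap (𝓞 F) F (γ * (1 + c * γ))) = _
    simp only [map_mul, map_add, map_one]
  refine ⟨c, γ, 4 * ρ + 2 ^ n * (Q : 𝓞 F) ^ (n + 2) * A * γ ^ 2,
    2 ^ n * (Q : 𝓞 F) ^ (n + 2) * A * γ, ?_, ?_, ?_, mul_ne_zero hc0 hγ0, ?_, ?_⟩
  · rw [hc]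
    have : (4 : 𝓞 F) ^ (n + 1) = 2 ^ (2 * (n + 1)) := by
      rw [pow_mul]; norm_num
    rw [this]
    ring
  · have h4 : (4 : 𝓞 F) ^ (n + 1) = 2 ^ (2 * (n + 1)) := by
      rw [pow_mul]; norm_num
    have h5 : γ * (1 + c * γ) = γ + c * γ ^ 2 := by ring
    rw [h5, hc, h4]
    nth_rewrite 1 [hγ]
    rw [hM]
    push_cast
    ring
  · have h4 : (4 : 𝓞 F) ^ (n + 1) = 2 ^ (2 * (n + 1)) := by
      rw [pow_mul]; norm_num
    rw [hc, h4]
    ring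
  · intro σ
    rcases real_embedding_cases hd σ₁ σ₂ hne σ with rfl | rfl
    · rw [hD]
      apply mul_neg_of_neg_of_pos hγ2
      have h3 : σ (c : F) * (-(1 / σ (c : F))) < σ (c : F) * σ (γ : F) :=
        mul_lt_mul_of_pos_left hγ1 hc1
      have h4 : σ (c : F) * (-(1 / σ (c : F))) = -1 := by
        field_simp
      linarith
    · rw [hD]
      apply mul_neg_of_neg_of_pos hγ3
      have := mul_pos_of_neg_of_neg hc2 hγ3
      linarith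
  · intro d hdT q hq
    have hqint : IsIntegral ℤ q := by
      have h5 : IsIntegral ℤ (q ^ 2) := by
        rw [hq]; exact RingOfIntegers.isIntegral_coe _
      exact IsIntegral.of_pow two_pos h5
    set z : 𝓞 F := ⟨q, hqint⟩ with hz
    have hzz : z ^ 2 = γ * ((1 + c * γ) * d) := by
      apply RingOfIntegers.coe_injective
      rw [map_pow]
      change q ^ 2 = _
      rw [hq, mul_assoc]
    have h6 : z ^ 2 ∈ P := by
      rw [hzz]; exact P.mul_mem_right _ hγP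
    have h7 : z ∈ P := hP.mem_of_pow_mem 2 h6
    have h8 : (1 + c * γ) * d * γ ∈ P ^ 2 := by
      have : (1 + c * γ) * d * γ = z ^ 2 := by rw [hzz]; ring
      rw [this]
      exact Ideal.pow_mem_pow h7 2
    rcases Ideal.IsPrime.mul_mem_pow P h8 with h9 | h9
    · rcases hP.mem_or_mem h9 with h10 | h10
      · apply hP.ne_top
        rw [Ideal.eq_top_iff_one]
        have : (1 : 𝓞 F) = (1 + c * γ) - c * γ := by ring
        rw [this]
        exact P.sub_mem h10 (P.mul_mem_left _ hγP)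
      · exact hTP d hdT h10
    · exact hγP2 h9

end Pool.Agent.Helper93.SL2
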