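import Pool.Agent.Helper93.SL2.Good
import Pool.Agent.Helper93.SL2.Datum

/-!
The `Σ`-Leopoldt conjecture for the members of the family.
-/

namespace Pool.Agent.Helper93.SL2

open NumberField Module
open Pool.Agent.Helper51.SigLeo

/-- The nontrivial automorphism changes the sign of a square root. -/
theorem map_sqrt {K H : Type*} [Field K] [CharZero K] [Field H] [Algebra K H]
    (hH : finrank K H = 2) (a : H) (d : K) (ha : a ^ 2 = algebraMap K H d)
    (haK : ∀ q : K, algebraMap K H q ≠ a) (τ : H ≃ₐ[K] H) (hτ : τ ≠ 1) : τ a = -a := by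
  have h1 : (τ a - a) * (τ a + a) = 0 := by
    have : (τ a) ^ 2 = a ^ 2 := by rw [← map_pow, ha, AlgEquiv.commutes]
    linear_combination this
  rcases mul_eq_zero.1 h1 with h | h
  · exfalso
    apply hτ
    apply AlgEquiv.ext
    intro z
    obtain ⟨u, v, rfl⟩ := exists_add_mul hH a haK z
    rw [map_add, map_mul, AlgEquiv.commutes, AlgEquiv.commutes, sub_eq_zero.1 h]
    rfl
  · exact eq_neg_of_add_eq_zero_left h

theorem member {F K H Ω : Type*} [Field F] [NumberField F] [IsTotallyReal F]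
    (hd : finrank ℚ F = 2) [Field K] [NumberField K] [Algebra F K] [IsTotallyComplex K]
    (hKF : finrank F K = 2) [Field H] [Algebra K H] (hH : finrank K H = 2) [Field Ω] [CharZero Ω]
    [IsAlgClosed Ω] (p : ℕ) [hp : Fact p.Prime] (k : Type*) [NormedField k]
    [NormedAlgebra ℚ_[p] k] [IsUltrametricDist k] [IsAlgClosed k]
    (t y α : F) (ht : IsIntegral ℤ t) (hty : t ^ 2 - 4 = α * y ^ 2)
    (hns : ∀ r : F, r ^ 2 ≠ t ^ 2 - 4) (σ₁ σ₂ : F →+* ℝ) (hne : σ₁ ≠ σ₂)
    (θ : 𝓞 F) (j n Q : ℕ) (hQ : 0 < Q) (hpQ : p ∣ Q) (δ : ℝ) (hgood : GoodAt p k t (θ : F) j δ)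
    (hδ : 3 * (1 / 2 : ℝ) ^ (n + 2) < δ) (A c γ κ κ' : 𝓞 F)
    (hA : (A : F) = (t ^ 2 - 4) * ((j : F) + (θ : F)) ^ 2)
    (hc : 4 * c = ((2 * (Q : 𝓞 F)) ^ (n + 2)) ^ 2 * A)
    (hD : γ * (1 + c * γ) = 1 + (2 * (Q : 𝓞 F)) ^ (n + 2) * κ)
    (hcγ : c * γ = (2 * (Q : 𝓞 F)) ^ (n + 2) * κ') (hcγ0 : c * γ ≠ 0)
    (x : K) (hx : x ^ 2 = algebraMap F K ((γ * (1 + c * γ) : 𝓞 F) : F))
    (a : H) (ha : a ^ 2 = algebraMap K H (algebraMap F K α))
    (haK : ∀ q : K, algebraMap K H q ≠ a) :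
    SigmaLeopoldt K H Ω p k := by
  have hchar : CharZero k := charZero_of_padic p
  have hchH : CharZero H := charZero_of_injective_algebraMap (algebraMap K H).injective
  -- the images in `F`
  have hcF : 4 * (c : F) = ((2 * (Q : F)) ^ (n + 2)) ^ 2 * ((t ^ 2 - 4) * ((j : F) + θ) ^ 2) := by
    have := congrArg (algebraMap (𝓞 F) F) hc
    simp only [map_mul, map_pow, map_ofNat, map_natCast] at this
    have hA' : algebraMap (𝓞 F) F A = (t ^ 2 - 4) * ((j : F) + (θ : F)) ^ 2 := hA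
    rw [hA'] at this
    exact this
  have hDF : (γ : F) * (1 + c * γ) = 1 + (2 * (Q : F)) ^ (n + 2) * κ := by
    have := congrArg (algebraMap (𝓞 F) F) hD
    simpa only [map_mul, map_pow, map_ofNat, map_natCast, map_add, map_one] using this
  have hcγF : (c : F) * γ = (2 * (Q : F)) ^ (n + 2) * κ' := by
    have := congrArg (algebraMap (𝓞 F) F) hcγ
    simpa only [map_mul, map_pow, map_ofNat, map_natCast, map_add, map_one] using this
  have hcγ0F : (c : F) * γ ≠ 0 := by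
    intro h
    apply hcγ0
    apply RingOfIntegers.coe_injective
    rw [map_mul, map_zero]
    exact h
  have hx' : x ^ 2 = algebraMap F K ((γ : F) * (1 + c * γ)) := by
    rw [hx]
    congr 1
  -- the map from `F` to `H`
  set f : F →+* H := (algebraMap K H).comp (algebraMap F K) with hf
  set a' : H := f y * a with ha'
  have ha'2 : a' ^ 2 = f (t ^ 2 - 4) := by
    rw [ha', mul_pow, ha, hty, map_mul, map_pow, hf]
    simp only [RingHom.comp_apply]
    ring
  set x' : H := algebraMap K H x with hx'def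
  have hx'2 : x' ^ 2 = f ((γ : F) * (1 + c * γ)) := by
    rw [hx'def, ← map_pow, hx', hf, RingHom.comp_apply]
  set l : F := (2 * (Q : F)) ^ (n + 2) * ((j : F) + θ) with hl
  have h2 : (2 : H) ≠ 0 := two_ne_zero
  have hint : ∀ z : F, IsIntegral ℤ z → IsIntegral ℤ (f z) := fun z hz => hz.map f.toIntAlgHom
  -- the unit of the base
  obtain ⟨η, hη1, -⟩ := exists_big_unit F
    (InfinitePlace.mk (Complex.ofRealHom.comp σ₁)) (InfinitePlace.mk (Complex.ofRealHom.comp σ₂))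
    (by
      intro h
      apply hne
      rw [InfinitePlace.mk_eq_iff] at h
      have key : Complex.ofRealHom.comp σ₂ = Complex.ofRealHom.comp σ₁ := by
        rcases h with h | h
        · exact h
        · rw [← h]
          ext z
          simp [ComplexEmbedding.conjugate]
      ext z
      have h3 := congrArg (fun g : F →+* ℂ => (g z).re) key
      simpa using h3.symm)
  have hηtors : ∀ m : ℕ, 0 < m → η ^ m ≠ 1 := by
    intro m hm h
    have h3 : (InfinitePlace.mk (Complex.ofRealHom.comp σ₁)) ((η : F)) ^ m = 1 := by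
      rw [← map_pow]
      have : (η : F) ^ m = 1 := by
        have h4 := congrArg (fun u : (𝓞 F)ˣ => ((u : 𝓞 F) : F)) h
        simpa using h4
      rw [this, map_one]
    have h4 := one_lt_pow₀ hη1 hm.ne'
    linarith
  have hη2 : f (η : F) * f ((η⁻¹ : (𝓞 F)ˣ) : F) = 1 := by
    rw [← map_mul, ← Units.coe_mul, mul_inv_cancel, Units.coe_one, map_one]
  have hη3 : IsIntegral ℤ (f (η : F) + f ((η⁻¹ : (𝓞 F)ˣ) : F)) := by
    refine IsIntegral.add ?_ ?_
    · exact hint _ (RingOfIntegers.isIntegral_coe _)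
    · exact hint _ (RingOfIntegers.isIntegral_coe _)
  -- the first relative unit
  have hu1m : (f t + a') / 2 * ((f t - a') / 2) = 1 := by
    rw [div_mul_div_comm, div_eq_one_iff_eq (mul_ne_zero h2 h2)]
    rw [map_sub, map_pow, map_ofNat] at ha'2
    linear_combination -ha'2
  have hu1s : IsIntegral ℤ ((f t + a') / 2 + (f t - a') / 2) := by
    have : (f t + a') / 2 + (f t - a') / 2 = f t := by field_simp; ring
    rw [this]
    exact hint _ ht
  -- the second relative unit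
  have hu2m : (1 + 2 * f (c * γ) + f l * a' * x') * (1 + 2 * f (c * γ) - f l * a' * x') = 1 := by
    have h5 : (f l * a' * x') ^ 2 = 4 * f (c * γ) * (1 + f (c * γ)) := by
      rw [mul_pow, mul_pow, ha'2, hx'2]
      have h6 : l ^ 2 * (t ^ 2 - 4) * ((γ : F) * (1 + c * γ)) =
          4 * (c * γ) * (1 + c * γ) := by
        rw [hl]
        linear_combination (-(γ : F) * (1 + c * γ)) * hcF
      have h7 := congrArg f h6
      simp only [map_mul, map_pow, map_add, map_one, map_ofNat] at h7 ⊢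
      exact h7
    linear_combination -h5
  have hu2s : IsIntegral ℤ ((1 + 2 * f (c * γ) + f l * a' * x') +
      (1 + 2 * f (c * γ) - f l * a' * x')) := by
    have : (1 + 2 * f (c * γ) + f l * a' * x') + (1 + 2 * f (c * γ) - f l * a' * x') =
        f ((2 + 4 * (c * γ) : 𝓞 F) : F) := by
      have h8 : ((2 + 4 * (c * γ) : 𝓞 F) : F) = 2 + 4 * ((c : F) * γ) := by
        change algebraMap (𝓞 F) F (2 + 4 * (c * γ)) = _
        simp only [map_mul, map_add, map_ofNat]
      rw [h8]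
      simp only [map_mul, map_add, map_ofNat]
      ring
    rw [this]
    exact hint _ (RingOfIntegers.isIntegral_coe _)
  have hτf : ∀ (τ : H ≃ₐ[K] H) (z : F), τ (f z) = f z := by
    intro τ z
    rw [hf, RingHom.comp_apply]
    exact τ.commutes _
  have hτa : ∀ τ : H ≃ₐ[K] H, τ ≠ 1 → τ a' = -a' := by
    intro τ hτ
    rw [ha', map_mul, hτf, map_sqrt hH a _ ha haK τ hτ, mul_neg]
  have hτx : ∀ τ : H ≃ₐ[K] H, τ x' = x' := fun τ => τ.commutes _
  refine sigmaLeopoldt_of_det hd hKF p k hH (mkUnit _ _ hη3 hη2) (mkUnit _ _ hu1s hu1m)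
    (mkUnit _ _ hu2s hu2m) ?_ ?_ ?_ ?_ ?_
  · intro τ
    exact hτf τ _
  · intro τ hτ
    change (f t + a') / 2 * τ ((f t + a') / 2) = 1
    rw [map_div₀, map_add, hτf, hτa τ hτ, map_ofNat, ← sub_eq_add_neg]
    exact hu1m
  · intro τ hτ
    change (1 + 2 * f (c * γ) + f l * a' * x') * τ (1 + 2 * f (c * γ) + f l * a' * x') = 1
    simp only [map_add, map_mul, map_one, map_ofNat] at hu2m ⊢
    rw [hτf, hτf, hτf, hτa τ hτ, hτx]
    linear_combination hu2m
  · intro L ψ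
    rw [logUnits_apply]
    exact log_unit_ne_zero p L (ψ.comp f) η hηtors _ rfl
  · intro L ψ₁ ψ₂ hψ
    rw [logUnits_apply, logUnits_apply, logUnits_apply, logUnits_apply]
    -- local data
    obtain ⟨Q', rfl⟩ := hpQ
    have hm : (1 / 2 : ℝ) ^ (n + 2) ≤ 1 / 4 := by
      calc (1 / 2 : ℝ) ^ (n + 2) ≤ (1 / 2) ^ 2 :=
            pow_le_pow_of_le_one (by norm_num) (by norm_num) (by omega)
        _ = 1 / 4 := by norm_num
    have hm0 : (0 : ℝ) < (1 / 2) ^ (n + 2) := by positivity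
    have hsmall : ∀ (φ : F →+* k) (z : 𝓞 F),
        ‖φ ((2 * ((p * Q' : ℕ) : F)) ^ (n + 2) * (z : F))‖ ≤ (1 / 2) ^ (n + 2) := by
      intro φ z
      have h9 : φ ((2 * ((p * Q' : ℕ) : F)) ^ (n + 2) * (z : F)) =
          (p : k) ^ (n + 2) * φ (((2 * (Q' : 𝓞 F)) ^ (n + 2) * z : 𝓞 F) : F) := by
        have h10 : (((2 * (Q' : 𝓞 F)) ^ (n + 2) * z : 𝓞 F) : F) =
            (2 * (Q' : F)) ^ (n + 2) * (z : F) := by
          change algebraMap (𝓞 F) F ((2 * (Q' : 𝓞 F)) ^ (n + 2) * z) = _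
          simp only [map_mul, map_pow, map_ofNat, map_natCast]
        rw [h10]
        simp only [map_mul, map_pow, map_ofNat, map_natCast, Nat.cast_mul]
        ring
      rw [h9, norm_mul]
      calc ‖(p : k) ^ (n + 2)‖ * ‖φ (((2 * (Q' : 𝓞 F)) ^ (n + 2) * z : 𝓞 F) : F)‖
          ≤ (1 / 2) ^ (n + 2) * 1 :=
            mul_le_mul (norm_p_pow_le p (n + 2)) (norm_embedding_le_one p φ _) (norm_nonneg _)
              (by positivity)
        _ = _ := mul_one _
    have loc : ∀ ψ : H →+* k, ∃ (r ξ ε : k), r ^ 2 = (ψ.comp f) (t ^ 2 - 4) ∧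
        ((Units.map (ψ.comp (algebraMap (𝓞 H) H) : 𝓞 H →* k) (mkUnit _ _ hu1s hu1m) : kˣ) : k) =
          ((ψ.comp f) t + r) / 2 ∧ ‖ξ ^ 2 - 1‖ < δ ∧ ‖ε‖ < δ ∧
        L.toFun (Units.map (ψ.comp (algebraMap (𝓞 H) H) : 𝓞 H →* k) (mkUnit _ _ hu2s hu2m)) =
          (2 * ((p * Q' : ℕ) : k)) ^ (n + 2) * ((j : k) + (ψ.comp f) θ) * r * ξ * (1 + ε) := by
      intro ψ
      have he : (ψ (f l * a' * x')) ^ 2 = 4 * ψ (f (c * γ)) * (1 + ψ (f (c * γ))) := by
        rw [← map_pow]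
        have : (f l * a' * x') ^ 2 = 4 * f (c * γ) * (1 + f (c * γ)) := by
          linear_combination -hu2m
        rw [this]
        simp only [map_mul, map_add, map_one, map_ofNat]
      have hw : ((Units.map (ψ.comp (algebraMap (𝓞 H) H) : 𝓞 H →* k)
          (mkUnit _ _ hu2s hu2m) : kˣ) : k) =
          1 + 2 * ψ (f (c * γ)) + ψ (f l * a' * x') := by
        have h11 : ((Units.map (ψ.comp (algebraMap (𝓞 H) H) : 𝓞 H →* k)
          (mkUnit _ _ hu2s hu2m) : kˣ) : k) =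
          ψ (1 + 2 * f (c * γ) + f l * a' * x') := rfl
        rw [h11, map_add, map_add, map_one, map_mul, map_ofNat]
      have hg0 : ψ (f (c * γ)) ≠ 0 := by
        rw [Ne, map_eq_zero, map_eq_zero]
        exact hcγ0F
      have hgm : ‖ψ (f (c * γ))‖ ≤ (1 / 2) ^ (n + 2) := by
        rw [hcγF]
        exact hsmall (ψ.comp f) κ'
      obtain ⟨ε, hε1, hε2⟩ := log_near p L he hw hg0 hgm hm
      refine ⟨ψ a', ψ x', ε, ?_, ?_, ?_, ?_, ?_⟩
      · rw [← map_pow, ha'2]; rfl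
      · change ψ ((f t + a') / 2) = _
        rw [map_div₀, map_add, map_ofNat]; rfl
      · have h12 : ψ x' ^ 2 - 1 = (ψ.comp f) ((2 * ((p * Q' : ℕ) : F)) ^ (n + 2) * κ) := by
          rw [← map_pow, hx'2, hDF, map_add, map_add, map_one, map_one]
          simp only [RingHom.comp_apply]
          ring
        rw [h12]
        refine (hsmall _ _).trans_lt ?_
        linarith
      · linarith
      · rw [hε1, hl]
        simp only [map_mul, map_add, map_pow, map_natCast, map_ofNat, RingHom.comp_apply]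
    obtain ⟨r₁, ξ₁, ε₁, hr₁, hU₁, hξ₁, hε₁, hL₁⟩ := loc ψ₁
    obtain ⟨r₂, ξ₂, ε₂, hr₂, hU₂, hξ₂, hε₂, hL₂⟩ := loc ψ₂
    rw [hL₁, hL₂]
    have hkey := hgood L (ψ₁.comp f) (ψ₂.comp f) hψ r₁ r₂ _ _ hr₁ hr₂ hU₁ hU₂ ξ₁ ξ₂ ε₁ ε₂ hξ₁ hξ₂
      hε₁ hε₂
    have ht4 : t ^ 2 - 4 ≠ 0 := fun h => hns 0 (by rw [h]; ring)
    have hr0 : ∀ (ψ : H →+* k) (r : k), r ^ 2 = (ψ.comp f) (t ^ 2 - 4) → r ≠ 0 := by
      intro ψ r hr h0
      rw [h0, zero_pow two_ne_zero] at hr
      exact ht4 ((map_eq_zero (ψ.comp f)).1 hr.symm)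
    have hr10 := hr0 ψ₁ r₁ hr₁
    have hr20 := hr0 ψ₂ r₂ hr₂
    have hR : ((2 * ((p * Q' : ℕ) : k)) ^ (n + 2)) ≠ 0 := by
      apply pow_ne_zero
      apply mul_ne_zero two_ne_zero
      exact_mod_cast hQ.ne'
    have hfac := mul_ne_zero (mul_ne_zero (mul_ne_zero hR hr10) hr20) hkey
    intro h0
    apply hfac
    rw [← h0]
    field_simp

end Pool.Agent.Helper93.SL2
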