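import Mathlib

/-!
Quadratic extensions of fields and number fields.
-/

namespace Pool.Agent.Helper93.SL2

open NumberField Module

section quad

variable {F K : Type*} [Field F] [Field K] [Algebra F K]

/-- Basis `1, x` of a quadratic extension. -/
theorem exists_add_mul (hK : finrank F K = 2) (x : K) (hx : ∀ q : F, algebraMap F K q ≠ x)
    (z : K) : ∃ a b : F, z = algebraMap F K a + algebraMap F K b * x := by
  have hli : LinearIndependent F ![(1 : K), x] := by
    rw [LinearIndependent.pair_iff]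
    intro s t hst
    have ht : t = 0 := by
      by_contra ht
      apply hx (-s / t)
      have ht' : algebraMap F K t ≠ 0 := by
        rw [Ne, map_eq_zero]; exact ht
      rw [Algebra.smul_def, Algebra.smul_def, mul_one] at hst
      rw [map_div₀, map_neg, div_eq_iff ht']
      linear_combination -hst
    subst ht
    refine ⟨?_, rfl⟩
    rw [zero_smul, add_zero, Algebra.smul_def, mul_one, map_eq_zero] at hst
    exact hst
  have : FiniteDimensional F K := FiniteDimensional.of_finrank_pos (by omega)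
  have hspan := hli.span_eq_top_of_card_eq_finrank' (by simp [hK])
  have hx : z ∈ Submodule.span F (Set.range ![(1 : K), x]) := by rw [hspan]; trivial
  rw [Matrix.range_cons, Matrix.range_cons, Matrix.range_empty, Set.union_empty,
    Set.singleton_union, Submodule.mem_span_pair] at hx
  obtain ⟨a, b, h⟩ := hx
  exact ⟨a, b, by rw [← h, Algebra.smul_def, Algebra.smul_def, mul_one]⟩

/-- A square of `F` in `K = F(x)`, `x ^ 2 = D`, is a square or `D` times a square. -/
theorem sq_cases [CharZero F] (hK : finrank F K = 2) (x : K) (D : F) (hx : x ^ 2 = algebraMap F K D)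
    (hD : ∀ q : F, q ^ 2 ≠ D) (z : K) (d : F) (hz : z ^ 2 = algebraMap F K d) :
    (∃ a : F, z = algebraMap F K a ∧ d = a ^ 2) ∨
      (∃ b : F, z = algebraMap F K b * x ∧ d = b ^ 2 * D) := by
  have hxF : ∀ q : F, algebraMap F K q ≠ x := by
    intro q hq
    apply hD q
    apply (algebraMap F K).injective
    rw [map_pow, hq, hx]
  obtain ⟨a, b, rfl⟩ := exists_add_mul hK x hxF z
  have hinj := (algebraMap F K).injective
  by_cases hb : b = 0
  · left
    refine ⟨a, by rw [hb, map_zero, zero_mul, add_zero], ?_⟩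
    rw [hb, map_zero, zero_mul, add_zero, ← map_pow] at hz
    exact (hinj hz).symm
  right
  by_cases ha : a = 0
  · refine ⟨b, by rw [ha, map_zero, zero_add], ?_⟩
    apply hinj
    rw [← hz, ha, map_zero, zero_add, mul_pow, hx, map_mul, map_pow]
  exfalso
  have h2 : (2 * a * b : F) ≠ 0 := by
    refine mul_ne_zero (mul_ne_zero two_ne_zero ha) hb
  apply hxF ((d - a ^ 2 - b ^ 2 * D) / (2 * a * b))
  rw [map_div₀]
  have h2' : algebraMap F K (2 * a * b) ≠ 0 := by rwa [Ne, map_eq_zero]
  rw [div_eq_iff h2']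
  simp only [map_sub, map_mul, map_pow, map_ofNat]
  linear_combination -hz + (algebraMap F K b) ^ 2 * hx

/-- The nontrivial automorphism. -/
theorem exists_conj [CharZero F] (hK : finrank F K = 2) (x : K) (D : F)
    (hx : x ^ 2 = algebraMap F K D) (hD : ∀ q : F, q ^ 2 ≠ D) :
    ∃ σ : K ≃ₐ[F] K, σ x = -x := by
  have : FiniteDimensional F K := FiniteDimensional.of_finrank_pos (by omega)
  have hxF : ∀ q : F, algebraMap F K q ≠ x := by
    intro q hq
    apply hD q
    apply (algebraMap F K).injective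
    rw [map_pow, hq, hx]
  have hfact : Fact (∀ r : F, r ^ 2 ≠ D + 0 * r) := ⟨by simpa using hD⟩
  let f : QuadraticAlgebra F D 0 →ₐ[F] K := QuadraticAlgebra.lift
    ⟨x, by rw [zero_smul, add_zero, Algebra.smul_def, mul_one, ← sq, hx]⟩
  let g : QuadraticAlgebra F D 0 →ₐ[F] K := QuadraticAlgebra.lift
    ⟨-x, by rw [zero_smul, add_zero, Algebra.smul_def, mul_one, ← sq, neg_sq, hx]⟩
  have hfx : f QuadraticAlgebra.omega = x := by simp [f]
  have hgx : g QuadraticAlgebra.omega = -x := by simp [g]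
  have hf : Function.Bijective f := by
    refine ⟨f.toRingHom.injective, ?_⟩
    intro z
    obtain ⟨a, b, rfl⟩ := exists_add_mul hK x hxF z
    refine ⟨algebraMap F _ a + algebraMap F _ b * QuadraticAlgebra.omega, ?_⟩
    rw [map_add, map_mul, AlgHom.commutes, AlgHom.commutes, hfx]
  have hg : Function.Bijective g := by
    refine ⟨g.toRingHom.injective, ?_⟩
    intro z
    obtain ⟨a, b, rfl⟩ := exists_add_mul hK x hxF z
    refine ⟨algebraMap F _ a - algebraMap F _ b * QuadraticAlgebra.omega, ?_⟩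
    rw [map_sub, map_mul, AlgHom.commutes, AlgHom.commutes, hgx]
    ring
  refine ⟨(AlgEquiv.ofBijective f hf).symm.trans (AlgEquiv.ofBijective g hg), ?_⟩
  have h1 : (AlgEquiv.ofBijective f hf).symm x = QuadraticAlgebra.omega := by
    rw [AlgEquiv.symm_apply_eq]
    exact hfx.symm
  rw [AlgEquiv.trans_apply, h1]
  exact hgx

/-- The field `F(√D)` inside an algebraically closed extension. -/
theorem exists_quadratic {Ω : Type*} [Field Ω] [Algebra F Ω] [IsAlgClosed Ω] (D : F)
    (hD : ∀ q : F, q ^ 2 ≠ D) :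
    ∃ K : IntermediateField F Ω, finrank F K = 2 ∧ ∃ x : K, x ^ 2 = algebraMap F K D := by
  obtain ⟨x, hx⟩ := IsAlgClosed.exists_pow_nat_eq (algebraMap F Ω D) (n := 2) two_pos
  have hirr : Irreducible (Polynomial.X ^ 2 - Polynomial.C D) :=
    X_pow_sub_C_irreducible_of_prime Nat.prime_two hD
  have hmin : minpoly F x = Polynomial.X ^ 2 - Polynomial.C D := by
    symm
    apply minpoly.eq_of_irreducible_of_monic hirr
    · simp [hx]
    · exact Polynomial.monic_X_pow_sub_C D two_ne_zero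
  have hint : IsIntegral F x := by
    refine ⟨Polynomial.X ^ 2 - Polynomial.C D, Polynomial.monic_X_pow_sub_C D two_ne_zero, ?_⟩
    simp [hx]
  refine ⟨IntermediateField.adjoin F {x}, ?_, ⟨x, IntermediateField.mem_adjoin_simple_self F x⟩, ?_⟩
  · rw [IntermediateField.adjoin.finrank hint, hmin, Polynomial.natDegree_X_pow_sub_C]
  · apply Subtype.ext
    exact hx

end quad


section numberField

theorem isIntegral_of_add_mul {E : Type*} [Field E] (z z' : E) (hs : IsIntegral ℤ (z + z'))
    (hq : IsIntegral ℤ (z * z')) : IsIntegral ℤ z := by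
  have h : IsIntegral (integralClosure ℤ E) z := by
    refine ⟨Polynomial.X ^ 2 - Polynomial.C (⟨z + z', hs⟩ : integralClosure ℤ E) * Polynomial.X +
      Polynomial.C (⟨z * z', hq⟩ : integralClosure ℤ E), ?_, ?_⟩
    · monicity!
    · simp only [Polynomial.eval₂_add, Polynomial.eval₂_sub, Polynomial.eval₂_mul,
        Polynomial.eval₂_pow, Polynomial.eval₂_X, Polynomial.eval₂_C]
      change z ^ 2 - (z + z') * z + z * z' = 0
      ring
  exact isIntegral_trans z h

variable {F K : Type*} [Field F] [Field K] [Algebra F K]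

/-- `F(√D)` is totally complex if `D` is totally negative. -/
theorem isTotallyComplex_of_neg (x : K) (D : F) (hx : x ^ 2 = algebraMap F K D)
    (hneg : ∀ σ : F →+* ℝ, σ D < 0) : IsTotallyComplex K := by
  refine ⟨fun v => ?_⟩
  rw [← InfinitePlace.not_isReal_iff_isComplex]
  intro hv
  rw [InfinitePlace.isReal_iff] at hv
  have h1 := hneg ((ComplexEmbedding.IsReal.embedding hv).comp (algebraMap F K))
  rw [RingHom.comp_apply, ← hx, map_pow] at h1
  exact absurd h1 (not_lt.2 (sq_nonneg _))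

/-- `F(√D)` is split at all primes above `p` if `D ≡ 1 mod 4p`. -/
theorem exists_two_primes [NumberField F] [NumberField K] (hK : finrank F K = 2) (p : ℕ) (x : K)
    (D : F) (hx : x ^ 2 = algebraMap F K D) (hD : ∀ q : F, q ^ 2 ≠ D) (τ : 𝓞 F)
    (hτ : D = 1 + 4 * (p : F) * (τ : F)) (𝔭 : Ideal (𝓞 F)) (h𝔭 : 𝔭.IsPrime)
    (hp : (p : 𝓞 F) ∈ 𝔭) :
    ∃ 𝔮₁ 𝔮₂ : Ideal (𝓞 K), 𝔮₁.IsPrime ∧ 𝔮₂.IsPrime ∧ 𝔮₁ ≠ 𝔮₂ ∧
      𝔮₁.comap (algebraMap (𝓞 F) (𝓞 K)) = 𝔭 ∧ 𝔮₂.comap (algebraMap (𝓞 F) (𝓞 K)) = 𝔭 := by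
  obtain ⟨σ, hσ⟩ := exists_conj hK x D hx hD
  have hinj : Function.Injective (algebraMap (𝓞 F) (𝓞 K)) :=
    FaithfulSMul.algebraMap_injective (𝓞 F) (𝓞 K)
  obtain ⟨𝔮, h𝔮, hcomap⟩ := Ideal.exists_ideal_over_prime_of_isIntegral_of_isDomain (S := 𝓞 K) 𝔭
    (by rw [(RingHom.injective_iff_ker_eq_bot _).1 hinj]; exact bot_le)
  have h2 : (2 : K) ≠ 0 := two_ne_zero
  have hxK : x ^ 2 = 1 + 4 * (p : K) * algebraMap F K (τ : F) := by
    rw [hx, hτ, map_add, map_mul, map_mul, map_one, map_ofNat, map_natCast]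
  have hprod : (x - 1) / 2 * ((-x - 1) / 2) = algebraMap F K (-((p : F) * (τ : F))) := by
    rw [map_neg, map_mul, map_natCast]
    field_simp
    linear_combination -hxK
  have hint : IsIntegral ℤ ((x - 1) / 2) := by
    apply isIntegral_of_add_mul _ ((-x - 1) / 2)
    · have : (x - 1) / 2 + (-x - 1) / 2 = ((-1 : ℤ) : K) := by
        push_cast; field_simp; ring
      rw [this]
      exact isIntegral_algebraMap (R := ℤ) (x := -1)
    · rw [hprod]
      have : IsIntegral ℤ (-((p : F) * (τ : F))) := by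
        have h := RingOfIntegers.isIntegral_coe (-((p : 𝓞 F) * τ))
        simpa using h
      exact this.map (algebraMap F K).toIntAlgHom
  set y : 𝓞 K := ⟨(x - 1) / 2, hint⟩ with hy
  have hyv : (y : K) = (x - 1) / 2 := rfl
  have hmul : y * (y + 1) ∈ 𝔮 := by
    have h3 : y * (y + 1) = algebraMap (𝓞 F) (𝓞 K) ((p : 𝓞 F) * τ) := by
      apply RingOfIntegers.coe_injective
      have h4 : algebraMap (𝓞 K) K (algebraMap (𝓞 F) (𝓞 K) ((p : 𝓞 F) * τ)) =
          algebraMap F K ((p : F) * (τ : F)) := by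
        rw [← IsScalarTower.algebraMap_apply (𝓞 F) (𝓞 K) K,
          IsScalarTower.algebraMap_apply (𝓞 F) F K, map_mul, map_natCast]
      have h5 : algebraMap (𝓞 K) K (y * (y + 1)) = (y : K) * ((y : K) + 1) := by
        rw [map_mul, map_add, map_one]
      rw [h4, h5, hyv, map_mul, map_natCast]
      field_simp
      linear_combination hxK
    rw [h3]
    have : (p : 𝓞 F) * τ ∈ 𝔮.comap (algebraMap (𝓞 F) (𝓞 K)) := by
      rw [hcomap]
      exact 𝔭.mul_mem_right _ hp
    exact this
  have hs : ∀ z : 𝓞 K, algebraMap (𝓞 K) K (RingOfIntegers.mapRingEquiv (σ : K ≃+* K) z) =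
      σ (z : K) :=
    fun z => rfl
  have hsy : RingOfIntegers.mapRingEquiv (σ : K ≃+* K) y = -(y + 1) := by
    apply RingOfIntegers.coe_injective
    rw [hs, hyv, map_div₀, map_sub, hσ, map_one, map_ofNat]
    have h5 : algebraMap (𝓞 K) K (-(y + 1)) = -((y : K) + 1) := by
      rw [map_neg, map_add, map_one]
    rw [h5, hyv]
    field_simp
    ring
  have hsy' : RingOfIntegers.mapRingEquiv (σ : K ≃+* K) (y + 1) = -y := by
    rw [map_add, hsy, map_one]; ring
  have hone : ¬(y ∈ 𝔮 ∧ y + 1 ∈ 𝔮) := by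
    rintro ⟨ha, hb⟩
    apply h𝔮.ne_top
    rw [Ideal.eq_top_iff_one]
    have : (1 : 𝓞 K) = (y + 1) - y := by ring
    rw [this]
    exact 𝔮.sub_mem hb ha
  have hpr : (𝔮.comap (RingOfIntegers.mapRingEquiv (σ : K ≃+* K))).IsPrime :=
    Ideal.comap_isPrime _ _
  refine ⟨𝔮, 𝔮.comap (RingOfIntegers.mapRingEquiv (σ : K ≃+* K)), h𝔮, hpr, ?_, hcomap, ?_⟩
  · intro heq
    rcases h𝔮.mem_or_mem hmul with h | h
    · apply hone
      refine ⟨h, ?_⟩
      have h6 := h
      rw [heq, Ideal.mem_comap, hsy] at h6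
      simpa using 𝔮.neg_mem h6
    · apply hone
      refine ⟨?_, h⟩
      have h6 := h
      rw [heq, Ideal.mem_comap, hsy'] at h6
      simpa using 𝔮.neg_mem h6
  · rw [← hcomap]
    ext z
    rw [Ideal.mem_comap, Ideal.mem_comap, Ideal.mem_comap]
    have : RingOfIntegers.mapRingEquiv (σ : K ≃+* K) (algebraMap (𝓞 F) (𝓞 K) z) =
        algebraMap (𝓞 F) (𝓞 K) z := by
      apply RingOfIntegers.coe_injective
      have h7 : algebraMap (𝓞 K) K (algebraMap (𝓞 F) (𝓞 K) z) = algebraMap F K (z : F) := by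
        rw [← IsScalarTower.algebraMap_apply (𝓞 F) (𝓞 K) K,
          IsScalarTower.algebraMap_apply (𝓞 F) F K]
      rw [hs, h7]
      exact σ.commutes _
    rw [this]

/-- Every quadratic extension of a number field is generated by the square root of an
integer. -/
theorem exists_integral_gen [NumberField F] (hK : finrank F K = 2) :
    ∃ (z : K) (d : 𝓞 F), z ^ 2 = algebraMap F K (d : F) ∧ (∀ q : F, algebraMap F K q ≠ z) ∧
      d ≠ 0 := by
  have : FiniteDimensional F K := FiniteDimensional.of_finrank_pos (by omega)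
  obtain ⟨x, hx⟩ : ∃ x : K, ∀ q : F, algebraMap F K q ≠ x := by
    by_contra hcon
    push Not at hcon
    have h1 : (⊥ : Subalgebra F K) = ⊤ := by
      rw [eq_top_iff]
      intro x _
      rw [Algebra.mem_bot]
      exact hcon x
    have h2 := Subalgebra.finrank_bot (F := F) (E := K)
    rw [h1, subalgebra_top_finrank_eq_submodule_top_finrank, finrank_top] at h2
    omega
  obtain ⟨a, b, hab⟩ := exists_add_mul hK x hx (x ^ 2)
  -- complete the square
  have h2 : (2 : K) ≠ 0 := by
    have : CharZero K := charZero_of_injective_algebraMap (algebraMap F K).injective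
    exact two_ne_zero
  have h2F : (2 : F) ≠ 0 := two_ne_zero
  obtain ⟨m, hm0, hm⟩ : ∃ m : ℤ, m ≠ 0 ∧ IsIntegral ℤ ((m : F) * (b ^ 2 + 4 * a)) := by
    have halg : IsAlgebraic ℤ (b ^ 2 + 4 * a) := by
      rw [IsFractionRing.isAlgebraic_iff ℤ ℚ F]
      exact Algebra.IsAlgebraic.isAlgebraic _
    obtain ⟨m, hm0, hm⟩ := halg.exists_integral_multiple
    refine ⟨m, hm0, ?_⟩
    rwa [← zsmul_eq_mul]
  have hmF : (m : F) ≠ 0 := by exact_mod_cast hm0
  have hxK : (2 * x - algebraMap F K b) ^ 2 = algebraMap F K (b ^ 2 + 4 * a) := by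
    simp only [map_add, map_mul, map_pow, map_ofNat]
    linear_combination 4 * hab
  have hint : IsIntegral ℤ ((m : F) ^ 2 * (b ^ 2 + 4 * a)) := by
    have h3 : (m : F) ^ 2 * (b ^ 2 + 4 * a) = (m : F) * ((m : F) * (b ^ 2 + 4 * a)) := by ring
    rw [h3]
    refine IsIntegral.mul ?_ hm
    exact isIntegral_algebraMap (R := ℤ) (x := m)
  refine ⟨algebraMap F K m * (2 * x - algebraMap F K b), ⟨_, hint⟩, ?_, ?_, ?_⟩
  · rw [mul_pow, hxK]
    change _ = algebraMap F K ((m : F) ^ 2 * (b ^ 2 + 4 * a))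
    rw [map_mul, map_pow]
  · intro q hq
    apply hx ((q / m + b) / 2)
    rw [map_div₀, map_add, map_div₀, map_ofNat, div_eq_iff h2]
    have hmK : algebraMap F K (m : F) ≠ 0 := by rwa [Ne, map_eq_zero]
    rw [div_add' _ _ _ hmK, div_eq_iff hmK]
    linear_combination hq
  · intro h0
    have h4 : (m : F) ^ 2 * (b ^ 2 + 4 * a) = 0 := congrArg (algebraMap (𝓞 F) F) h0
    have h5 : b ^ 2 + 4 * a = 0 := by
      rcases mul_eq_zero.1 h4 with h | h
      · exact absurd h (pow_ne_zero 2 hmF)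
      · exact h
    rw [h5, map_zero, pow_eq_zero_iff two_ne_zero, sub_eq_zero] at hxK
    apply hx (b / 2)
    rw [map_div₀, map_ofNat, div_eq_iff h2]
    linear_combination -hxK

end numberField

end Pool.Agent.Helper93.SL2
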