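import Mathlib

/-!
Integers of a real quadratic field with prescribed congruences and signs.
-/

namespace Pool.Agent.Helper93.SL2

open NumberField Module

theorem exists_theta (F : Type*) [Field F] [NumberField F] (hd : finrank ℚ F = 2) :
    ∃ θ : 𝓞 F, ∀ q : ℚ, algebraMap ℚ F q ≠ (θ : F) := by
  by_contra h
  push Not at h
  have h1 : (⊥ : Subalgebra ℚ F) = ⊤ := by
    rw [eq_top_iff]
    intro x _
    rw [Algebra.mem_bot]
    have halg : IsAlgebraic ℤ x := by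
      have : IsAlgebraic ℚ x := Algebra.IsAlgebraic.isAlgebraic x
      exact (IsFractionRing.isAlgebraic_iff ℤ ℚ F).2 this
    obtain ⟨y, hy0, hy⟩ := halg.exists_integral_multiple
    obtain ⟨q, hq⟩ := h ⟨y • x, hy⟩
    refine ⟨q / y, ?_⟩
    have hy0' : (y : F) ≠ 0 := by exact_mod_cast hy0
    rw [map_div₀, hq]
    simp only [RingOfIntegers.map_mk, zsmul_eq_mul, map_intCast]
    field_simp
  rw [Subalgebra.bot_eq_top_iff_finrank_eq_one] at h1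
  omega

theorem real_embedding_cases {F : Type*} [Field F] [NumberField F] (hd : finrank ℚ F = 2)
    (σ₁ σ₂ : F →+* ℝ) (hne : σ₁ ≠ σ₂) (ψ : F →+* ℝ) : ψ = σ₁ ∨ ψ = σ₂ := by
  classical
  by_contra h
  push Not at h
  have hinj : Function.Injective
      (fun φ : F →+* ℝ => (Complex.ofRealHom.comp φ : F →+* ℂ)) := by
    intro a b hab
    ext x
    have := RingHom.congr_fun hab x
    simpa using this
  have hcard := NumberField.Embeddings.card F ℂ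
  rw [hd] at hcard
  have h3 : ({Complex.ofRealHom.comp ψ, Complex.ofRealHom.comp σ₁, Complex.ofRealHom.comp σ₂} :
      Finset (F →+* ℂ)).card = 3 := by
    rw [Finset.card_eq_three]
    exact ⟨_, _, _, fun e => h.1 (hinj e), fun e => h.2 (hinj e), fun e => hne (hinj e), rfl⟩
  have := Finset.card_le_univ ({Complex.ofRealHom.comp ψ, Complex.ofRealHom.comp σ₁,
    Complex.ofRealHom.comp σ₂} : Finset (F →+* ℂ))
  omega

/-- The additive map `x ↦ σ (m x)` on the integers. -/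
noncomputable def scaleHom {F : Type*} [Field F] (σ : F →+* ℝ) (m : ℕ) : 𝓞 F →+ ℝ where
  toFun x := σ ((m : F) * (x : F))
  map_zero' := by simp
  map_add' x y := by
    have : ((x + y : 𝓞 F) : F) = (x : F) + (y : F) := rfl
    rw [this, mul_add, map_add]

theorem scaleHom_apply {F : Type*} [Field F] (σ : F →+* ℝ) (m : ℕ) (x : 𝓞 F) :
    scaleHom σ m x = σ ((m : F) * (x : F)) := rfl

theorem dense_range {F : Type*} [Field F] [NumberField F] (hd : finrank ℚ F = 2)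
    (σ : F →+* ℝ) (m : ℕ) (hm : 0 < m) :
    Dense ((scaleHom σ m).range : Set ℝ) := by
  rcases AddSubgroup.dense_or_cyclic (scaleHom σ m).range with h | ⟨a, ha⟩
  · exact h
  exfalso
  obtain ⟨θ, hθ⟩ := exists_theta F hd
  have key : ∀ x : 𝓞 F, ∃ k : ℤ, k • a = σ ((m : F) * (x : F)) := by
    intro x
    have : scaleHom σ m x ∈ (scaleHom σ m).range := ⟨x, rfl⟩
    rw [ha] at this
    exact AddSubgroup.mem_closure_singleton.1 this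
  obtain ⟨k, hk⟩ := key 1
  obtain ⟨l, hl⟩ := key θ
  have hm' : (0 : ℝ) < m := by exact_mod_cast hm
  rw [map_mul, map_natCast] at hk hl
  have h1 : ((1 : 𝓞 F) : F) = 1 := rfl
  rw [h1, map_one, mul_one, zsmul_eq_mul] at hk
  rw [zsmul_eq_mul] at hl
  have hk0 : (k : ℝ) ≠ 0 := by
    intro h; rw [h, zero_mul] at hk; linarith
  have ha0 : a ≠ 0 := by
    intro h; rw [h, mul_zero] at hk; linarith
  have hσ : σ (θ : F) = (l : ℝ) / k := by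
    rw [eq_div_iff hk0]
    have : (m : ℝ) * (σ (θ : F) * k) = m * l := by
      calc (m : ℝ) * (σ (θ : F) * k) = (m * σ (θ : F)) * k := by ring
        _ = l * a * k := by rw [hl]
        _ = l * (k * a) := by ring
        _ = m * l := by rw [hk]; ring
    exact mul_left_cancel₀ hm'.ne' this
  apply hθ ((l : ℚ) / k)
  apply σ.injective
  rw [hσ, map_div₀, map_div₀]
  simp

theorem exists_small {F : Type*} [Field F] [NumberField F] (hF : NumberField.IsTotallyReal F)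
    (hd : finrank ℚ F = 2) (σ₁ σ₂ : F →+* ℝ) (hne : σ₁ ≠ σ₂) (m : ℕ) (hm : 0 < m)
    (δ B : ℝ) (hδ : 0 < δ) :
    ∃ ζ : 𝓞 F, |σ₁ ((m : F) * (ζ : F))| < δ ∧ σ₂ ((m : F) * (ζ : F)) < -B := by
  by_contra hcon
  push Not at hcon
  have habs : ∀ ζ : 𝓞 F, |σ₁ ((m : F) * (ζ : F))| < δ → |σ₂ ((m : F) * (ζ : F))| ≤ B := by
    intro ζ hζ
    rw [abs_le]
    refine ⟨hcon ζ hζ, ?_⟩
    have h2 := hcon (-ζ) (by
      have : ((-ζ : 𝓞 F) : F) = -(ζ : F) := rfl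
      rw [this, mul_neg, map_neg, abs_neg]; exact hζ)
    have : ((-ζ : 𝓞 F) : F) = -(ζ : F) := rfl
    rw [this, mul_neg, map_neg] at h2
    linarith
  have hfin : {x : F | IsIntegral ℤ x ∧ ∀ φ : F →+* ℂ, ‖φ x‖ ≤ max δ B}.Finite :=
    Embeddings.finite_of_norm_le F ℂ _
  have hsub : Set.Ioo (-δ) δ ∩ ((scaleHom σ₁ m).range : Set ℝ) ⊆
      σ₁ '' {x : F | IsIntegral ℤ x ∧ ∀ φ : F →+* ℂ, ‖φ x‖ ≤ max δ B} := by
    rintro y ⟨hy, ζ, rfl⟩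
    rw [scaleHom_apply] at hy ⊢
    have h1 : |σ₁ ((m : F) * (ζ : F))| < δ := abs_lt.2 hy
    have h2 := habs ζ h1
    refine ⟨(m : F) * (ζ : F), ⟨?_, ?_⟩, rfl⟩
    · have : (m : F) * (ζ : F) = algebraMap (𝓞 F) F ((m : 𝓞 F) * ζ) := by
        rw [map_mul, map_natCast]
      rw [this]
      exact RingOfIntegers.isIntegral_coe _
    · intro φ
      have hr : ComplexEmbedding.IsReal φ := hF.complexEmbedding_isReal φ
      have hφ : φ ((m : F) * (ζ : F)) = (hr.embedding ((m : F) * (ζ : F)) : ℂ) :=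
        (hr.coe_embedding_apply _).symm
      rw [hφ, Complex.norm_real, Real.norm_eq_abs]
      rcases real_embedding_cases hd σ₁ σ₂ hne hr.embedding with h | h
      · rw [h]; exact h1.le.trans (le_max_left _ _)
      · rw [h]; exact h2.trans (le_max_right _ _)
  have hfin2 : (Set.Ioo (-δ) δ ∩ ((scaleHom σ₁ m).range : Set ℝ)).Finite :=
    (hfin.image σ₁).subset hsub
  have h3 : Set.Ioo (-δ) δ ⊆ closure (Set.Ioo (-δ) δ ∩ ((scaleHom σ₁ m).range : Set ℝ)) :=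
    (dense_range hd σ₁ m hm).open_subset_closure_inter isOpen_Ioo
  rw [hfin2.isClosed.closure_eq] at h3
  exact (Set.Ioo_infinite (by linarith : -δ < δ)) (hfin2.subset h3)

theorem exists_strip {F : Type*} [Field F] [NumberField F] (hF : NumberField.IsTotallyReal F)
    (hd : finrank ℚ F = 2) (σ₁ σ₂ : F →+* ℝ) (hne : σ₁ ≠ σ₂) (m : ℕ) (hm : 0 < m)
    (γ₀ : 𝓞 F) (ε : ℝ) (hε : 0 < ε) :
    ∃ ξ : 𝓞 F, -ε < σ₁ ((γ₀ : F) + (m : F) * (ξ : F)) ∧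
      σ₁ ((γ₀ : F) + (m : F) * (ξ : F)) < 0 ∧ σ₂ ((γ₀ : F) + (m : F) * (ξ : F)) < 0 := by
  obtain ⟨y, hy, hy1, hy2⟩ := (dense_range hd σ₁ m hm).exists_between
    (show -σ₁ (γ₀ : F) - 3 * ε / 4 < -σ₁ (γ₀ : F) - ε / 4 by linarith)
  obtain ⟨ξ₀, rfl⟩ := hy
  rw [scaleHom_apply] at hy1 hy2
  obtain ⟨ζ, hζ1, hζ2⟩ := exists_small hF hd σ₁ σ₂ hne m hm (ε / 4)
    (|σ₂ (γ₀ : F)| + |σ₂ ((m : F) * (ξ₀ : F))|) (by linarith)
  refine ⟨ξ₀ + ζ, ?_, ?_, ?_⟩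
  all_goals
    have hc : ((ξ₀ + ζ : 𝓞 F) : F) = (ξ₀ : F) + (ζ : F) := rfl
    rw [hc, mul_add, map_add, map_add]
  · have := (abs_lt.1 hζ1).1
    linarith
  · have := (abs_lt.1 hζ1).2
    linarith
  · have h1 := le_abs_self (σ₂ (γ₀ : F))
    have h2 := le_abs_self (σ₂ ((m : F) * (ξ₀ : F)))
    linarith

/-- Integers that are `1` modulo `M`, exactly divisible by a given prime, small and negative at
one real place, negative at the other. -/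
theorem exists_gamma {F : Type*} [Field F] [NumberField F] (hF : NumberField.IsTotallyReal F)
    (hd : finrank ℚ F = 2) (σ₁ σ₂ : F →+* ℝ) (hne : σ₁ ≠ σ₂) (M ℓ : ℕ) (hM : 0 < M)
    (hℓ : ℓ.Prime) (hcop : Nat.Coprime M ℓ) (P : Ideal (𝓞 F)) (hP : P.IsPrime)
    (hℓP : (ℓ : 𝓞 F) ∈ P) (ε : ℝ) (hε : 0 < ε) :
    ∃ γ ρ : 𝓞 F, γ = 1 + (M : 𝓞 F) * ρ ∧ γ ∈ P ∧ γ ∉ P ^ 2 ∧
      -ε < σ₁ (γ : F) ∧ σ₁ (γ : F) < 0 ∧ σ₂ (γ : F) < 0 := by
  have hP0 : P ≠ ⊥ := by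
    rintro rfl
    rw [Ideal.mem_bot] at hℓP
    exact hℓ.ne_zero (by exact_mod_cast hℓP)
  obtain ⟨ϖ, hϖ1, hϖ2⟩ := Ideal.exists_mem_pow_notMem_pow_succ P hP0 hP.ne_top 1
  rw [pow_one] at hϖ1
  have hc : IsCoprime (M : ℤ) ((ℓ : ℤ) ^ 2) := by
    apply IsCoprime.pow_right
    exact Nat.isCoprime_iff_coprime.2 hcop
  obtain ⟨a, b, hab⟩ := hc
  have hab' : (a : 𝓞 F) * (M : 𝓞 F) + (b : 𝓞 F) * (ℓ : 𝓞 F) ^ 2 = 1 := by
    have := congrArg (fun z : ℤ => (z : 𝓞 F)) hab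
    simpa using this
  have hℓ2 : (ℓ : 𝓞 F) ^ 2 ∈ P ^ 2 := Ideal.pow_mem_pow hℓP 2
  have hℓ1 : (ℓ : 𝓞 F) ^ 2 ∈ P := by rw [sq]; exact P.mul_mem_left _ hℓP
  obtain ⟨ξ, hξ⟩ := exists_strip hF hd σ₁ σ₂ hne (M * ℓ ^ 2) (by have := hℓ.pos; positivity)
    ((b : 𝓞 F) * (ℓ : 𝓞 F) ^ 2 + (a : 𝓞 F) * (M : 𝓞 F) * ϖ) ε hε
  refine ⟨((b : 𝓞 F) * (ℓ : 𝓞 F) ^ 2 + (a : 𝓞 F) * (M : 𝓞 F) * ϖ) +
    ((M * ℓ ^ 2 : ℕ) : 𝓞 F) * ξ, (a : 𝓞 F) * (ϖ - 1) + (ℓ : 𝓞 F) ^ 2 * ξ, ?_, ?_, ?_, ?_⟩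
  · push_cast
    linear_combination hab'
  · refine P.add_mem (P.add_mem (P.mul_mem_left _ hℓ1) (P.mul_mem_left _ hϖ1)) ?_
    push_cast
    have : (M : 𝓞 F) * (ℓ : 𝓞 F) ^ 2 * ξ = ((M : 𝓞 F) * ξ) * (ℓ : 𝓞 F) ^ 2 := by ring
    rw [this]
    exact P.mul_mem_left _ hℓ1
  · intro hmem
    apply hϖ2
    have : ϖ = (((b : 𝓞 F) * (ℓ : 𝓞 F) ^ 2 + (a : 𝓞 F) * (M : 𝓞 F) * ϖ) +
        ((M * ℓ ^ 2 : ℕ) : 𝓞 F) * ξ) -
        ((b : 𝓞 F) - (b : 𝓞 F) * ϖ + (M : 𝓞 F) * ξ) * (ℓ : 𝓞 F) ^ 2 := by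
      push_cast
      linear_combination -ϖ * hab'
    rw [this]
    exact (P ^ 2).sub_mem hmem ((P ^ 2).mul_mem_left _ hℓ2)
  · have e : ((((b : 𝓞 F) * (ℓ : 𝓞 F) ^ 2 + (a : 𝓞 F) * (M : 𝓞 F) * ϖ) +
        ((M * ℓ ^ 2 : ℕ) : 𝓞 F) * ξ : 𝓞 F) : F) =
        (((b : 𝓞 F) * (ℓ : 𝓞 F) ^ 2 + (a : 𝓞 F) * (M : 𝓞 F) * ϖ : 𝓞 F) : F) +
        ((M * ℓ ^ 2 : ℕ) : F) * (ξ : F) := by
      have e2 : ∀ x y : 𝓞 F, ((x + ((M * ℓ ^ 2 : ℕ) : 𝓞 F) * y : 𝓞 F) : F) =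
          (x : F) + ((M * ℓ ^ 2 : ℕ) : F) * (y : F) := by
        intro x y
        have : algebraMap (𝓞 F) F (x + ((M * ℓ ^ 2 : ℕ) : 𝓞 F) * y) =
          algebraMap (𝓞 F) F x + ((M * ℓ ^ 2 : ℕ) : F) * algebraMap (𝓞 F) F y := by
          rw [map_add, map_mul, map_natCast]
        exact this
      exact e2 _ _
    rw [e]
    exact hξ

end Pool.Agent.Helper93.SL2
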