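import Mathlib

/-!
Existence of a relative unit of norm one: `t ^ 2 - 4 = α * y ^ 2` with `t` integral and
`|σ₁ t| > 2`, when `α` is positive at `σ₁` and not a square.
-/

namespace Pool.Agent.Helper93.SL2

open NumberField

/-- A unit that is larger than one at a given place and smaller than one at all others. -/
theorem exists_big_unit (K : Type*) [Field K] [NumberField K] (w₁ w₂ : InfinitePlace K)
    (hw : w₂ ≠ w₁) : ∃ u : (𝓞 K)ˣ, 1 < w₁ (u : K) ∧ ∀ w : InfinitePlace K, w ≠ w₁ →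
      w (u : K) < 1 := by
  classical
  obtain ⟨u, hu⟩ := Units.dirichletUnitTheorem.exists_unit K w₁
  have hpos : ∀ w : InfinitePlace K, 0 < w (u : K) := fun w => w.pos_iff.2 (Units.coe_ne_zero u)
  have hlt : ∀ w : InfinitePlace K, w ≠ w₁ → w (u : K) < 1 := fun w hw =>
    (Real.log_neg_iff (hpos w)).1 (hu w hw)
  refine ⟨u, ?_, hlt⟩
  have hsum := Units.sum_mult_mul_log u
  rw [← Finset.add_sum_erase _ _ (Finset.mem_univ w₁)] at hsum
  have hneg : ∑ w ∈ Finset.univ.erase w₁, (w.mult : ℝ) * Real.log (w (u : K)) < 0 := by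
    apply Finset.sum_neg
    · intro w hw
      exact mul_neg_of_pos_of_neg (by exact_mod_cast InfinitePlace.mult_pos)
        (hu w (Finset.ne_of_mem_erase hw))
    · exact ⟨w₂, Finset.mem_erase.2 ⟨hw, Finset.mem_univ _⟩⟩
  have h1 : 0 < (w₁.mult : ℝ) * Real.log (w₁ (u : K)) := by linarith
  have h2 : 0 < Real.log (w₁ (u : K)) :=
    (mul_pos_iff_of_pos_left (by exact_mod_cast InfinitePlace.mult_pos)).1 h1
  exact (Real.log_pos_iff (hpos w₁).le).1 h2

theorem two_lt_abs_add_inv {x y : ℝ} (hxy : x * y = 1) (hx : 1 < |x|) : 2 < |x + y| := by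
  have hx0 : x ≠ 0 := by
    rintro rfl
    simp at hxy
  have hy : y = x⁻¹ := eq_inv_of_mul_eq_one_right hxy
  have h1 : |x + y| ^ 2 = x ^ 2 + 2 + y ^ 2 := by
    rw [sq_abs]; linear_combination 2 * hxy
  have h2 : (x ^ 2 - 1) ^ 2 > 0 := by
    have : 1 < x ^ 2 := by
      rw [← sq_abs]; nlinarith
    have : 0 < x ^ 2 - 1 := by linarith
    positivity
  have h3 : x ^ 2 * y ^ 2 = 1 := by rw [← mul_pow, hxy, one_pow]
  have h4 : 2 < x ^ 2 + y ^ 2 := by
    have hx2 : 0 < x ^ 2 := by positivity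
    by_contra h
    push Not at h
    nlinarith [mul_le_mul_of_nonneg_left h hx2.le]
  have h5 : (2:ℝ) ^ 2 < |x + y| ^ 2 := by rw [h1]; linarith
  exact lt_of_pow_lt_pow_left₀ 2 (abs_nonneg _) h5

section quad

variable {F : Type*} [Field F] {α : F}

theorem star_omega' : star (QuadraticAlgebra.omega : QuadraticAlgebra F α 0) =
    - (QuadraticAlgebra.omega : QuadraticAlgebra F α 0) := by
  ext <;> simp

theorem add_star' (z : QuadraticAlgebra F α 0) :
    z + star z = algebraMap F (QuadraticAlgebra F α 0) (2 * z.re) := by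
  ext <;> simp [two_mul, QuadraticAlgebra.algebraMap_re, QuadraticAlgebra.algebraMap_im]

theorem norm_of_mul_star (z : QuadraticAlgebra F α 0) (h : z * star z = 1) :
    z.re ^ 2 - α * z.im ^ 2 = 1 := by
  have h2 := congrArg QuadraticAlgebra.re h
  simp only [QuadraticAlgebra.re_mul, QuadraticAlgebra.re_star, QuadraticAlgebra.im_star,
    QuadraticAlgebra.re_one] at h2
  linear_combination h2

theorem lift_omega' {A : Type*} [CommRing A] [Algebra F A]
    (u : { u : A // u * u = α • 1 + (0 : F) • u }) :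
    QuadraticAlgebra.lift u (QuadraticAlgebra.omega : QuadraticAlgebra F α 0) = u.1 := by
  simp [QuadraticAlgebra.lift]

end quad

theorem exists_pell {F : Type*} [Field F] [NumberField F] (α : F) (σ₁ : F →+* ℝ)
    (h₁ : 0 < σ₁ α) (hns : ∀ r : F, r ^ 2 ≠ α) :
    ∃ t y : F, IsIntegral ℤ t ∧ t ^ 2 - 4 = α * y ^ 2 ∧ 2 < |σ₁ t| := by
  have hfact : Fact (∀ r : F, r ^ 2 ≠ α + 0 * r) := ⟨by simpa using hns⟩
  have hNF : NumberField (QuadraticAlgebra F α 0) := NumberField.of_module_finite F _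
  let _ : Algebra F ℝ := σ₁.toAlgebra
  have hsq : Real.sqrt (σ₁ α) * Real.sqrt (σ₁ α) = α • (1 : ℝ) + (0 : F) • Real.sqrt (σ₁ α) := by
    rw [Real.mul_self_sqrt h₁.le, zero_smul, add_zero, Algebra.smul_def, mul_one]
    rfl
  obtain ⟨φ, hφF, hφω⟩ : ∃ φ : QuadraticAlgebra F α 0 →+* ℝ,
      (∀ c : F, φ (algebraMap F (QuadraticAlgebra F α 0) c) = σ₁ c) ∧
      φ QuadraticAlgebra.omega = Real.sqrt (σ₁ α) :=
    ⟨(QuadraticAlgebra.lift ⟨Real.sqrt (σ₁ α), hsq⟩ : QuadraticAlgebra F α 0 →ₐ[F] ℝ).toRingHom,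
      fun c => (QuadraticAlgebra.lift ⟨Real.sqrt (σ₁ α), hsq⟩ :
        QuadraticAlgebra F α 0 →ₐ[F] ℝ).commutes c, lift_omega' _⟩
  obtain ⟨τ, hτ⟩ : ∃ τ : QuadraticAlgebra F α 0 →+* QuadraticAlgebra F α 0,
      ∀ x, τ x = star x := ⟨starRingEnd _, fun x => starRingEnd_apply x⟩
  have hτω : τ QuadraticAlgebra.omega = - QuadraticAlgebra.omega := by
    rw [hτ, star_omega']
  have hne : InfinitePlace.mk (Complex.ofRealHom.comp (φ.comp τ)) ≠
      InfinitePlace.mk (Complex.ofRealHom.comp φ) := by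
    intro h
    have hpos : 0 < Real.sqrt (σ₁ α) := Real.sqrt_pos.2 h₁
    have key : Complex.ofRealHom (φ (τ QuadraticAlgebra.omega)) =
        Complex.ofRealHom (φ QuadraticAlgebra.omega) := by
      rcases InfinitePlace.mk_eq_iff.1 h with h | h
      · exact RingHom.congr_fun h _
      · have := RingHom.congr_fun h QuadraticAlgebra.omega
        rw [ComplexEmbedding.conjugate_coe_eq] at this
        simpa using this
    rw [hτω, map_neg, hφω] at key
    have : -Real.sqrt (σ₁ α) = Real.sqrt (σ₁ α) := Complex.ofReal_injective key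
    linarith
  obtain ⟨u, hu1, hu2⟩ := exists_big_unit _ _ _ hne
  have hu2' := hu2 _ hne
  rw [InfinitePlace.apply] at hu1 hu2'
  simp only [RingHom.comp_apply, Complex.ofRealHom_eq_coe, Complex.norm_real,
    Real.norm_eq_abs] at hu1 hu2'
  have hu0 : algebraMap (𝓞 (QuadraticAlgebra F α 0)) (QuadraticAlgebra F α 0)
    (u : 𝓞 (QuadraticAlgebra F α 0)) ≠ 0 :=
    Units.coe_ne_zero u
  have huint : IsIntegral ℤ (algebraMap (𝓞 (QuadraticAlgebra F α 0)) (QuadraticAlgebra F α 0)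
    (u : 𝓞 (QuadraticAlgebra F α 0))) := RingOfIntegers.isIntegral_coe _
  have huinv : IsIntegral ℤ ((algebraMap (𝓞 (QuadraticAlgebra F α 0)) (QuadraticAlgebra F α 0)
      (u : 𝓞 (QuadraticAlgebra F α 0)))⁻¹) := by
    have := RingOfIntegers.isIntegral_coe
      ((u⁻¹ : (𝓞 (QuadraticAlgebra F α 0))ˣ) : 𝓞 (QuadraticAlgebra F α 0))
    simpa using this
  generalize algebraMap (𝓞 (QuadraticAlgebra F α 0)) (QuadraticAlgebra F α 0)
    (u : 𝓞 (QuadraticAlgebra F α 0)) = U at *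
  have hτu0 : τ U ≠ 0 := (map_ne_zero τ).2 hu0
  have hττ : ∀ x, τ (τ x) = x := fun x => by rw [hτ, hτ, star_star]
  have hτint : ∀ x, IsIntegral ℤ x → IsIntegral ℤ (τ x) := fun x hx =>
    hx.map (τ.toIntAlgHom)
  obtain ⟨v, hv⟩ : ∃ v, v = U / τ U := ⟨_, rfl⟩
  have hvv : v * τ v = 1 := by
    rw [hv, map_div₀, hττ, div_mul_div_comm, mul_comm U, div_self (mul_ne_zero hτu0 hu0)]
  have hvint : IsIntegral ℤ v := by
    have h := hτint _ huinv
    rw [map_inv₀] at h
    rw [hv, div_eq_mul_inv]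
    exact (huint.mul h)
  have hτvint := hτint v hvint
  have htr : v + τ v = algebraMap F _ (2 * v.re) := by
    rw [hτ]; exact add_star' v
  have hnorm : v.re ^ 2 - α * v.im ^ 2 = 1 := by
    rw [hτ] at hvv
    exact norm_of_mul_star v hvv
  refine ⟨2 * v.re, 2 * v.im, ?_, ?_, ?_⟩
  · have h : IsIntegral ℤ (algebraMap F (QuadraticAlgebra F α 0) (2 * v.re)) := by
      rw [← htr]; exact hvint.add hτvint
    exact (isIntegral_algebraMap_iff (algebraMap F (QuadraticAlgebra F α 0)).injective).1 h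
  · linear_combination 4 * hnorm
  · have h : σ₁ (2 * v.re) = φ v + φ (τ v) := by
      rw [← map_add, htr, hφF]
    rw [h]
    apply two_lt_abs_add_inv
    · rw [← map_mul, hvv, map_one]
    · rw [hv, map_div₀, abs_div, one_lt_div (abs_pos.2 ((map_ne_zero φ).2 hτu0))]
      linarith

end Pool.Agent.Helper93.SL2
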