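import Pool.Agent.Helper93.SL2.PadicLog
import Pool.Agent.Helper93.SL2.Gamma
import Pool.Agent.Helper93.SL2.Pell
import Pool.Agent.Helper93.SL2.Fields
import Pool.Agent.Helper51.SigLeo.Bridge

/-!
The choice of the auxiliary integer `j + θ`.
-/

namespace Pool.Agent.Helper93.SL2

open NumberField Module
open Pool.Agent.Helper51.SigLeo

section units

/-- The unit of the ring of integers given by `z * z' = 1` with `z + z'` integral. -/
noncomputable def mkUnit {E : Type*} [Field E] (z z' : E) (hs : IsIntegral ℤ (z + z'))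
    (hm : z * z' = 1) : (𝓞 E)ˣ where
  val := ⟨z, isIntegral_of_add_mul z z' hs (by rw [hm]; exact isIntegral_one)⟩
  inv := ⟨z', isIntegral_of_add_mul z' z (by rwa [add_comm])
    (by rw [mul_comm, hm]; exact isIntegral_one)⟩
  val_inv := RingOfIntegers.coe_injective hm
  inv_val := RingOfIntegers.coe_injective ((mul_comm _ _).trans hm)

@[simp]
theorem mkUnit_coe {E : Type*} [Field E] (z z' : E) (hs : IsIntegral ℤ (z + z'))
    (hm : z * z' = 1) : (((mkUnit z z' hs hm : (𝓞 E)ˣ) : 𝓞 E) : E) = z := rfl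

theorem not_torsion {E : Type*} [Field E] (Ψ : E →+* ℂ) (z z' : E) (hm : z * z' = 1)
    (h : 2 < ‖Ψ (z + z')‖) (k : ℕ) (hk : 0 < k) : z ^ k ≠ 1 := by
  intro hz
  have h1 : ‖Ψ z‖ = 1 := by
    have : ‖Ψ z‖ ^ k = 1 := by
      rw [← norm_pow, ← map_pow, hz, map_one, norm_one]
    exact (pow_eq_one_iff_of_nonneg (norm_nonneg _) hk.ne').1 this
  have h2 : ‖Ψ z‖ * ‖Ψ z'‖ = 1 := by
    rw [← norm_mul, ← map_mul, hm, map_one, norm_one]
  rw [h1, one_mul] at h2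
  have h3 : ‖Ψ (z + z')‖ ≤ 2 := by
    rw [map_add]
    refine (norm_add_le _ _).trans ?_
    rw [h1, h2]; norm_num
  linarith

end units

section generator

theorem eq_add_mul {F : Type*} [Field F] [NumberField F] (hd : finrank ℚ F = 2)
    (θ : F) (hθ : ∀ q : ℚ, algebraMap ℚ F q ≠ θ) (x : F) :
    ∃ a b : ℚ, x = algebraMap ℚ F a + algebraMap ℚ F b * θ := by
  have hli : LinearIndependent ℚ ![(1 : F), θ] := by
    rw [LinearIndependent.pair_iff]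
    intro s t hst
    have ht : t = 0 := by
      by_contra ht
      apply hθ (-s / t)
      have ht' : algebraMap ℚ F t ≠ 0 := by
        rw [Ne, map_eq_zero]; exact ht
      rw [Algebra.smul_def, Algebra.smul_def, mul_one] at hst
      rw [map_div₀, map_neg, div_eq_iff ht']
      linear_combination -hst
    subst ht
    refine ⟨?_, rfl⟩
    rw [zero_smul, add_zero] at hst
    simpa using hst
  have hspan := hli.span_eq_top_of_card_eq_finrank' (by simp [hd])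
  have hx : x ∈ Submodule.span ℚ (Set.range ![(1 : F), θ]) := by rw [hspan]; trivial
  rw [Matrix.range_cons, Matrix.range_cons, Matrix.range_empty, Set.union_empty,
    Set.singleton_union, Submodule.mem_span_pair] at hx
  obtain ⟨a, b, h⟩ := hx
  exact ⟨a, b, by rw [← h, Algebra.smul_def, Algebra.smul_def, mul_one]⟩

theorem embedding_eq_of_theta {F : Type*} [Field F] [NumberField F] (hd : finrank ℚ F = 2)
    (θ : F) (hθ : ∀ q : ℚ, algebraMap ℚ F q ≠ θ) {A : Type*} [Field A] [CharZero A]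
    (φ₁ φ₂ : F →+* A) (h : φ₁ θ = φ₂ θ) : φ₁ = φ₂ := by
  ext x
  obtain ⟨a, b, rfl⟩ := eq_add_mul hd θ hθ x
  have hq : ∀ q : ℚ, φ₁ (algebraMap ℚ F q) = φ₂ (algebraMap ℚ F q) := by
    intro q
    simp
  rw [map_add, map_add, map_mul, map_mul, hq, hq, h]

end generator

variable {k : Type*} [NormedField k]

theorem det_bound (p : ℕ) [Fact p.Prime] [NormedAlgebra ℚ_[p] k] [IsUltrametricDist k]
    (q₁ q₂ Λ₁ Λ₂ : k) (h : q₁ ^ 2 * Λ₂ ^ 2 ≠ q₂ ^ 2 * Λ₁ ^ 2) :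
    ∃ δ : ℝ, 0 < δ ∧ ∀ X₁ X₂ ε₁ ε₂ : k, ‖X₁ ^ 2 - 1‖ < δ → ‖X₂ ^ 2 - 1‖ < δ →
      ‖ε₁‖ < δ → ‖ε₂‖ < δ →
      q₁ * Λ₂ * X₂ * (1 + ε₂) - q₂ * Λ₁ * X₁ * (1 + ε₁) ≠ 0 := by
  set A := q₁ ^ 2 * Λ₂ ^ 2 with hA
  set B := q₂ ^ 2 * Λ₁ ^ 2 with hB
  have hAB : 0 < ‖A - B‖ := norm_pos_iff.2 (sub_ne_zero.2 h)
  have hden : 0 < ‖A‖ + ‖B‖ + 1 := by positivity
  refine ⟨min (1 / 2) (‖A - B‖ / (‖A‖ + ‖B‖ + 1)), by positivity, ?_⟩
  intro X₁ X₂ ε₁ ε₂ h1 h2 h3 h4 h0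
  have hδ1 : min (1 / 2) (‖A - B‖ / (‖A‖ + ‖B‖ + 1)) ≤ 1 / 2 := min_le_left _ _
  set δ := min (1 / 2) (‖A - B‖ / (‖A‖ + ‖B‖ + 1)) with hδ
  have key : ∀ X ε : k, ‖X ^ 2 - 1‖ < δ → ‖ε‖ < δ → ‖X ^ 2 * (1 + ε) ^ 2 - 1‖ < δ := by
    intro X ε hX hε
    have hX1 : ‖X ^ 2‖ ≤ 1 := by
      have : X ^ 2 = (X ^ 2 - 1) + 1 := by ring
      rw [this]
      refine (norm_add_le_max' _ _).trans (max_le ?_ (by rw [norm_one]))
      linarith
    have he : ‖2 * ε + ε ^ 2‖ ≤ ‖ε‖ := by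
      refine (norm_add_le_max' _ _).trans (max_le ?_ ?_)
      · rw [norm_mul]
        have := norm_two_le p (k := k)
        nlinarith [norm_nonneg ε]
      · rw [norm_pow]
        nlinarith [norm_nonneg ε]
    have e : X ^ 2 * (1 + ε) ^ 2 - 1 = X ^ 2 * (2 * ε + ε ^ 2) + (X ^ 2 - 1) := by ring
    rw [e]
    refine (norm_add_le_max' _ _).trans_lt (max_lt ?_ hX)
    rw [norm_mul]
    calc ‖X ^ 2‖ * ‖2 * ε + ε ^ 2‖ ≤ 1 * ‖ε‖ :=
          mul_le_mul hX1 he (norm_nonneg _) zero_le_one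
      _ = ‖ε‖ := one_mul _
      _ < δ := hε
  have k1 := key X₁ ε₁ h1 h3
  have k2 := key X₂ ε₂ h2 h4
  have hsq : A * (X₂ ^ 2 * (1 + ε₂) ^ 2) = B * (X₁ ^ 2 * (1 + ε₁) ^ 2) := by
    have : q₁ * Λ₂ * X₂ * (1 + ε₂) = q₂ * Λ₁ * X₁ * (1 + ε₁) := sub_eq_zero.1 h0
    calc A * (X₂ ^ 2 * (1 + ε₂) ^ 2) = (q₁ * Λ₂ * X₂ * (1 + ε₂)) ^ 2 := by rw [hA]; ring
      _ = (q₂ * Λ₁ * X₁ * (1 + ε₁)) ^ 2 := by rw [this]
      _ = B * (X₁ ^ 2 * (1 + ε₁) ^ 2) := by rw [hB]; ring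
  have e : A - B = B * (X₁ ^ 2 * (1 + ε₁) ^ 2 - 1) - A * (X₂ ^ 2 * (1 + ε₂) ^ 2 - 1) := by
    linear_combination hsq
  have hle : ‖A - B‖ ≤ (‖A‖ + ‖B‖) * δ := by
    have hδ0 : 0 ≤ δ := (norm_nonneg _).trans k1.le
    rw [e]
    refine (norm_sub_le_max' _ _).trans (max_le ?_ ?_)
    · rw [norm_mul]
      calc ‖B‖ * ‖X₁ ^ 2 * (1 + ε₁) ^ 2 - 1‖ ≤ ‖B‖ * δ :=
            mul_le_mul_of_nonneg_left k1.le (norm_nonneg _)
        _ ≤ (‖A‖ + ‖B‖) * δ :=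
            mul_le_mul_of_nonneg_right (by linarith [norm_nonneg A]) hδ0
    · rw [norm_mul]
      calc ‖A‖ * ‖X₂ ^ 2 * (1 + ε₂) ^ 2 - 1‖ ≤ ‖A‖ * δ :=
            mul_le_mul_of_nonneg_left k2.le (norm_nonneg _)
        _ ≤ (‖A‖ + ‖B‖) * δ :=
            mul_le_mul_of_nonneg_right (by linarith [norm_nonneg B]) hδ0
  have hδ2 : δ * (‖A‖ + ‖B‖ + 1) ≤ ‖A - B‖ := by
    rw [← le_div_iff₀ hden]; exact min_le_right _ _
  have hδpos : 0 < δ := by rw [hδ]; positivity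
  nlinarith

theorem bad_finite [CharZero k] (A B x y : k) (hA : A ≠ 0) (hxy : x ≠ y) :
    {j : ℕ | A * ((j : k) + y) ^ 2 = B * ((j : k) + x) ^ 2}.Finite := by
  let P : Polynomial k := Polynomial.C (A - B) * Polynomial.X ^ 2 +
    Polynomial.C (2 * (A * y - B * x)) * Polynomial.X + Polynomial.C (A * y ^ 2 - B * x ^ 2)
  have hP : P ≠ 0 := by
    intro h
    have h2 := congrArg (fun P : Polynomial k => P.coeff 2) h
    have h1 := congrArg (fun P : Polynomial k => P.coeff 1) h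
    simp only [P, Polynomial.coeff_add, Polynomial.coeff_C_mul, Polynomial.coeff_X_pow,
      Polynomial.coeff_X, Polynomial.coeff_C, Polynomial.coeff_zero] at h1 h2
    norm_num at h1 h2
    have hBA : B = A := by linear_combination -h2
    rw [hBA] at h1
    have : A * (y - x) = 0 := by linear_combination h1
    rcases mul_eq_zero.1 this with h3 | h3
    · exact hA h3
    · exact hxy (by linear_combination -h3)
  have hroots : {x : k | P.IsRoot x}.Finite := Polynomial.finite_setOfPred_isRoot hP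
  refine (hroots.preimage (f := fun j : ℕ => (j : k)) Nat.cast_injective.injOn).subset ?_
  intro j hj
  simp only [Set.mem_preimage, Set.mem_ofPred_eq, Polynomial.IsRoot.def, P, Polynomial.eval_add,
    Polynomial.eval_mul, Polynomial.eval_C, Polynomial.eval_pow, Polynomial.eval_X] at hj ⊢
  linear_combination hj

/-- The property required of the auxiliary integer `j` at the prime `p`. -/
def GoodAt (p : ℕ) (k : Type*) [NormedField k] {F : Type*} [Field F] (t θ : F) (j : ℕ)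
    (δ : ℝ) : Prop :=
  ∀ L : IwasawaLog p k, ∀ φ₁ φ₂ : F →+* k, φ₁ ≠ φ₂ →
    ∀ (r₁ r₂ : k) (U₁ U₂ : kˣ), r₁ ^ 2 = φ₁ (t ^ 2 - 4) → r₂ ^ 2 = φ₂ (t ^ 2 - 4) →
      (U₁ : k) = (φ₁ t + r₁) / 2 → (U₂ : k) = (φ₂ t + r₂) / 2 →
      ∀ X₁ X₂ ε₁ ε₂ : k, ‖X₁ ^ 2 - 1‖ < δ → ‖X₂ ^ 2 - 1‖ < δ → ‖ε₁‖ < δ → ‖ε₂‖ < δ →
        (L.toFun U₁ / r₁) * (j + φ₂ θ) * X₂ * (1 + ε₂) -
          (L.toFun U₂ / r₂) * (j + φ₁ θ) * X₁ * (1 + ε₁) ≠ 0

theorem GoodAt.mono {p : ℕ} {F : Type*} [Field F] {t θ : F} {j : ℕ} {δ δ' : ℝ}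
    (h : GoodAt p k t θ j δ) (hle : δ' ≤ δ) : GoodAt p k t θ j δ' := by
  intro L φ₁ φ₂ hφ r₁ r₂ U₁ U₂ h1 h2 h3 h4 X₁ X₂ ε₁ ε₂ h5 h6 h7 h8
  exact h L φ₁ φ₂ hφ r₁ r₂ U₁ U₂ h1 h2 h3 h4 X₁ X₂ ε₁ ε₂ (h5.trans_le hle) (h6.trans_le hle)
    (h7.trans_le hle) (h8.trans_le hle)

section ratio

variable (p : ℕ) [hp : Fact p.Prime] [NormedAlgebra ℚ_[p] k] [IsUltrametricDist k]
  [IsAlgClosed k] {F : Type*} [Field F] [NumberField F] (t : F) (ht : IsIntegral ℤ t)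
  (hns : ∀ r : F, r ^ 2 ≠ t ^ 2 - 4)

include ht hns

/-- The local units come from a unit of a number field. -/
theorem exists_model (σ₁ : F →+* ℝ) (hσ : 2 < |σ₁ t|) (φ : F →+* k) (r : k)
    (U : kˣ) (hr : r ^ 2 = φ (t ^ 2 - 4)) (hU : (U : k) = (φ t + r) / 2) :
    (∀ L L' : IwasawaLog p k, L.toFun U = L'.toFun U) ∧
    (∀ L : IwasawaLog p k, L.toFun U ≠ 0) := by
  have hchar : CharZero k := charZero_of_padic p
  have hfact : Fact (∀ r : F, r ^ 2 ≠ (t ^ 2 - 4) + 0 * r) := ⟨by simpa using hns⟩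
  have hNF : NumberField (QuadraticAlgebra F (t ^ 2 - 4) 0) := NumberField.of_module_finite F _
  obtain ⟨ψ, hψF, hψω⟩ : ∃ ψ : QuadraticAlgebra F (t ^ 2 - 4) 0 →+* k,
      (∀ c : F, ψ (algebraMap F (QuadraticAlgebra F (t ^ 2 - 4) 0) c) = φ c) ∧
      ψ QuadraticAlgebra.omega = r := by
    let _ : Algebra F k := φ.toAlgebra
    have hsq : r * r = (t ^ 2 - 4 : F) • (1 : k) + (0 : F) • r := by
      rw [zero_smul, add_zero, Algebra.smul_def, mul_one, ← sq, hr]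
      rfl
    exact ⟨(QuadraticAlgebra.lift ⟨r, hsq⟩ :
        QuadraticAlgebra F (t ^ 2 - 4) 0 →ₐ[F] k).toRingHom,
      fun c => (QuadraticAlgebra.lift ⟨r, hsq⟩ :
        QuadraticAlgebra F (t ^ 2 - 4) 0 →ₐ[F] k).commutes c, lift_omega' _⟩
  obtain ⟨Ψ, hΨ⟩ := exists_extend_embedding (K := F) (H := QuadraticAlgebra F (t ^ 2 - 4) 0)
    (A := ℂ) (Complex.ofRealHom.comp σ₁)
  have hω : (QuadraticAlgebra.omega : QuadraticAlgebra F (t ^ 2 - 4) 0) *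
      QuadraticAlgebra.omega = algebraMap F _ (t ^ 2 - 4) := by
    rw [QuadraticAlgebra.omega_mul_omega_eq_algebraMap, map_zero, zero_mul, add_zero]
  have h2 : (2 : QuadraticAlgebra F (t ^ 2 - 4) 0) ≠ 0 := two_ne_zero
  have hm : (algebraMap F (QuadraticAlgebra F (t ^ 2 - 4) 0) t + QuadraticAlgebra.omega) / 2 *
      ((algebraMap F (QuadraticAlgebra F (t ^ 2 - 4) 0) t - QuadraticAlgebra.omega) / 2) = 1 := by
    rw [div_mul_div_comm, div_eq_one_iff_eq (mul_ne_zero h2 h2)]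
    rw [map_sub, map_pow, map_ofNat] at hω
    linear_combination -hω
  have hs : (algebraMap F (QuadraticAlgebra F (t ^ 2 - 4) 0) t + QuadraticAlgebra.omega) / 2 +
      ((algebraMap F (QuadraticAlgebra F (t ^ 2 - 4) 0) t - QuadraticAlgebra.omega) / 2) =
      algebraMap F (QuadraticAlgebra F (t ^ 2 - 4) 0) t := by
    field_simp
    ring
  have hsint : IsIntegral ℤ
      ((algebraMap F (QuadraticAlgebra F (t ^ 2 - 4) 0) t + QuadraticAlgebra.omega) / 2 +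
      ((algebraMap F (QuadraticAlgebra F (t ^ 2 - 4) 0) t - QuadraticAlgebra.omega) / 2)) := by
    rw [hs]; exact ht.map (algebraMap F _).toIntAlgHom
  have hUψ : (U : k) = ψ (((mkUnit _ _ hsint hm : (𝓞 (QuadraticAlgebra F (t ^ 2 - 4) 0))ˣ) :
      𝓞 (QuadraticAlgebra F (t ^ 2 - 4) 0)) : QuadraticAlgebra F (t ^ 2 - 4) 0) := by
    rw [mkUnit_coe, map_div₀, map_add, hψF, hψω, map_ofNat, hU]
  refine ⟨fun L L' => log_unique p L L' ψ _ U hUψ, fun L =>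
    log_unit_ne_zero p L ψ _ ?_ U hUψ⟩
  intro m hk hk1
  have h3 := congrArg (fun u : (𝓞 (QuadraticAlgebra F (t ^ 2 - 4) 0))ˣ =>
    ((u : 𝓞 (QuadraticAlgebra F (t ^ 2 - 4) 0)) : QuadraticAlgebra F (t ^ 2 - 4) 0)) hk1
  refine not_torsion Ψ _ _ hm ?_ m hk ?_
  · rw [hs]
    have : Ψ (algebraMap F _ t) = (Complex.ofRealHom.comp σ₁) t := by
      rw [← hΨ]; rfl
    rw [this]
    simpa using hσ
  · simpa using h3

omit [NumberField F] ht hns in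
theorem ratio_eq (φ : F →+* k) (L : IwasawaLog p k) (r r' : k) (U U' : kˣ) (hr : r ^ 2 = φ (t ^ 2 - 4)) (hr' : r' ^ 2 = φ (t ^ 2 - 4))
    (hU : (U : k) = (φ t + r) / 2) (hU' : (U' : k) = (φ t + r') / 2) :
    L.toFun U / r = L.toFun U' / r' := by
  have hchar : CharZero k := charZero_of_padic p
  have h : (r - r') * (r + r') = 0 := by linear_combination hr - hr'
  rcases mul_eq_zero.1 h with h | h
  · have e : r = r' := sub_eq_zero.1 h
    have e2 : U = U' := Units.ext (by rw [hU, hU', e])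
    rw [e, e2]
  · have e : r = -r' := eq_neg_of_add_eq_zero_left h
    have e2 : U = U'⁻¹ := by
      rw [eq_inv_iff_mul_eq_one]
      apply Units.ext
      rw [Units.val_mul, hU, hU', e, Units.val_one, map_sub, map_pow, map_ofNat] at *
      have h2 : (2 : k) ≠ 0 := two_ne_zero
      field_simp
      linear_combination -hr'
    rw [e, e2, toFun_inv, neg_div_neg_eq]

/-- All but finitely many `j` are good. -/
theorem good_finite (hd : finrank ℚ F = 2) (σ₁ : F →+* ℝ) (hσ : 2 < |σ₁ t|) (θ : F)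
    (hθ : ∀ q : ℚ, algebraMap ℚ F q ≠ θ) :
    {j : ℕ | ¬ ∃ δ : ℝ, 0 < δ ∧ GoodAt p k t θ j δ}.Finite := by
  classical
  have hchar : CharZero k := charZero_of_padic p
  by_cases hL : Nonempty (IwasawaLog p k)
  swap
  · refine Set.Finite.subset Set.finite_empty ?_
    intro j hj
    exfalso
    apply hj
    exact ⟨1, one_pos, fun L => absurd ⟨L⟩ hL⟩
  obtain ⟨L₀⟩ := hL
  have ht4 : t ^ 2 - 4 ≠ 0 := fun h => hns 0 (by rw [h]; ring)
  have hex : ∀ φ : F →+* k, ∃ (r : k) (U : kˣ), r ^ 2 = φ (t ^ 2 - 4) ∧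
      (U : k) = (φ t + r) / 2 := by
    intro φ
    obtain ⟨r, hr⟩ := IsAlgClosed.exists_pow_nat_eq (φ (t ^ 2 - 4)) (n := 2) two_pos
    have h2 : (2 : k) ≠ 0 := two_ne_zero
    have hm : (φ t + r) / 2 * ((φ t - r) / 2) = 1 := by
      rw [map_sub, map_pow, map_ofNat] at hr
      field_simp
      linear_combination -hr
    exact ⟨r, ⟨(φ t + r) / 2, (φ t - r) / 2, hm, by rw [mul_comm]; exact hm⟩, hr, rfl⟩
  choose r U hr hU using hex
  have hr0 : ∀ φ, r φ ≠ 0 := by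
    intro φ h0
    have := hr φ
    rw [h0, zero_pow two_ne_zero] at this
    exact ht4 ((map_eq_zero φ).1 this.symm)
  set q : (F →+* k) → k := fun φ => L₀.toFun (U φ) / r φ with hq
  have hq0 : ∀ φ, q φ ≠ 0 := fun φ => div_ne_zero
    ((exists_model p t ht hns σ₁ hσ φ (r φ) (U φ) (hr φ) (hU φ)).2 L₀) (hr0 φ)
  have hqL : ∀ (φ : F →+* k) (L : IwasawaLog p k) (s : k) (V : kˣ), s ^ 2 = φ (t ^ 2 - 4) →
      (V : k) = (φ t + s) / 2 → L.toFun V / s = q φ := by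
    intro φ L s V hs hV
    rw [ratio_eq p t φ L s (r φ) V (U φ) hs (hr φ) hV (hU φ)]
    rw [hq]
    simp only
    rw [(exists_model p t ht hns σ₁ hσ φ (r φ) (U φ) (hr φ) (hU φ)).1 L L₀]
  have hbad : (⋃ x : (F →+* k) × (F →+* k), if x.1 = x.2 then (∅ : Set ℕ) else
      {j : ℕ | (q x.1) ^ 2 * ((j : k) + x.2 θ) ^ 2 =
        (q x.2) ^ 2 * ((j : k) + x.1 θ) ^ 2}).Finite := by
    apply Set.finite_iUnion
    intro x
    by_cases hx : x.1 = x.2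
    · simp [hx]
    · rw [if_neg hx]
      refine bad_finite _ _ _ _ (pow_ne_zero 2 (hq0 _)) ?_
      intro h
      exact hx (embedding_eq_of_theta hd θ hθ _ _ h)
  refine hbad.subset ?_
  intro j hj
  by_contra hcon
  apply hj
  rw [Set.mem_iUnion] at hcon
  push Not at hcon
  have hδ : ∀ x : (F →+* k) × (F →+* k), ∃ δ : ℝ, 0 < δ ∧ (x.1 ≠ x.2 →
      ∀ X₁ X₂ ε₁ ε₂ : k, ‖X₁ ^ 2 - 1‖ < δ → ‖X₂ ^ 2 - 1‖ < δ → ‖ε₁‖ < δ → ‖ε₂‖ < δ →
      q x.1 * (j + x.2 θ) * X₂ * (1 + ε₂) - q x.2 * (j + x.1 θ) * X₁ * (1 + ε₁) ≠ 0) := by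
    intro x
    by_cases hx : x.1 = x.2
    · exact ⟨1, one_pos, fun h => absurd hx h⟩
    · have h := hcon x
      rw [if_neg hx] at h
      obtain ⟨δ, hδ0, hδ⟩ := det_bound p (q x.1) (q x.2) (j + x.1 θ) (j + x.2 θ) h
      exact ⟨δ, hδ0, fun _ => hδ⟩
  choose δ hδ0 hδ using hδ
  have hmin : ∃ η : ℝ, 0 < η ∧ ∀ x, η ≤ δ x := by
    rcases isEmpty_or_nonempty ((F →+* k) × (F →+* k)) with he | he
    · exact ⟨1, one_pos, fun x => (he.false x).elim⟩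
    · obtain ⟨x₀, hx₀⟩ := Finite.exists_min δ
      exact ⟨δ x₀, hδ0 x₀, hx₀⟩
  obtain ⟨η, hη0, hη⟩ := hmin
  refine ⟨η, hη0, ?_⟩
  intro L φ₁ φ₂ hφ r₁ r₂ U₁ U₂ h1 h2 h3 h4 X₁ X₂ ε₁ ε₂ h5 h6 h7 h8
  rw [hqL φ₁ L r₁ U₁ h1 h3, hqL φ₂ L r₂ U₂ h2 h4]
  have := hη (φ₁, φ₂)
  exact hδ (φ₁, φ₂) hφ X₁ X₂ ε₁ ε₂ (h5.trans_le this) (h6.trans_le this) (h7.trans_le this)
    (h8.trans_le this)

end ratio

end Pool.Agent.Helper93.SL2
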