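import Pool.Agent.Helper93.SL2.Member
import Pool.Agent.Helper51.SigLeo.Member

/-!
Infinitely many CM fields for a given quadratic character of mixed signature.
-/

namespace Pool.Agent.Helper93.SL2

open NumberField Module
open Pool.Agent.Helper51.SigLeo

/-- One `j`, one bound, for all the primes. -/
theorem exists_good (F : Type*) [Field F] [NumberField F] (hd : finrank ℚ F = 2) (t : F)
    (ht : IsIntegral ℤ t) (hns : ∀ r : F, r ^ 2 ≠ t ^ 2 - 4) (σ₁ : F →+* ℝ) (hσ : 2 < |σ₁ t|)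
    (θ : F) (hθ : ∀ q : ℚ, algebraMap ℚ F q ≠ θ) (P : Finset ℕ) :
    ∃ j n : ℕ, ∀ p ∈ P, ∀ _ : Fact p.Prime, ∃ δ : ℝ, GoodAt p ℂ_[p] t θ j δ ∧
      3 * (1 / 2 : ℝ) ^ (n + 2) < δ := by
  have hfin : (⋃ p ∈ P, {j : ℕ | ∃ _ : Fact p.Prime,
      ¬ ∃ δ : ℝ, 0 < δ ∧ GoodAt p ℂ_[p] t θ j δ}).Finite := by
    refine Set.Finite.biUnion (Finset.finite_toSet _) fun p _ => ?_
    by_cases hp : p.Prime
    · have : Fact p.Prime := ⟨hp⟩
      refine (good_finite (k := ℂ_[p]) p t ht hns hd σ₁ hσ θ hθ).subset ?_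
      rintro j ⟨_, hj⟩
      exact hj
    · refine Set.finite_empty.subset ?_
      rintro j ⟨h, -⟩
      exact (hp h.out).elim
  obtain ⟨j, hj⟩ := hfin.exists_notMem
  have hex : ∀ p ∈ P, ∃ δ : ℝ, 0 < δ ∧ ∀ _ : Fact p.Prime, GoodAt p ℂ_[p] t θ j δ := by
    intro p hpP
    by_cases hp : p.Prime
    · have hF : Fact p.Prime := ⟨hp⟩
      have h1 : ∃ δ : ℝ, 0 < δ ∧ GoodAt p ℂ_[p] t θ j δ := by
        by_contra hcon
        apply hj
        rw [Set.mem_iUnion₂]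
        exact ⟨p, hpP, hF, hcon⟩
      obtain ⟨δ, hδ0, hδ⟩ := h1
      exact ⟨δ, hδ0, fun _ => hδ⟩
    · exact ⟨1, one_pos, fun h => (hp h.out).elim⟩
  choose! δ hδ0 hδ using hex
  have hlim : Filter.Tendsto (fun n : ℕ => 3 * (1 / 2 : ℝ) ^ (n + 2)) Filter.atTop (nhds 0) := by
    have h1 := (tendsto_pow_atTop_nhds_zero_of_lt_one (r := (1 / 2 : ℝ)) (by norm_num)
      (by norm_num)).comp (Filter.tendsto_add_atTop_nat 2)
    simpa using h1.const_mul 3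
  have hev : ∀ᶠ n : ℕ in Filter.atTop, ∀ p ∈ P, 3 * (1 / 2 : ℝ) ^ (n + 2) < δ p := by
    rw [Filter.eventually_all_finset]
    intro p hp
    exact hlim.eventually_lt_const (hδ0 p hp)
  obtain ⟨n, hn⟩ := hev.exists
  exact ⟨j, n, fun p hp _ => ⟨δ p, hδ p hp _, hn p hp⟩⟩

theorem main (F : Type*) [Field F] [NumberField F] [IsTotallyReal F] (hd : finrank ℚ F = 2)
    (α : F) (hpos : ∃ σ : F →+* ℝ, 0 < σ α) (hneg : ∃ σ : F →+* ℝ, σ α < 0) (P : Finset ℕ) :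
    {K : IntermediateField F (AlgebraicClosure F) |
      finrank F K = 2 ∧ IsTotallyComplex K ∧
      (∀ p ∈ P, p.Prime → ∀ 𝔭 : Ideal (𝓞 F), 𝔭.IsPrime → (p : 𝓞 F) ∈ 𝔭 →
        (𝔭.primesOver (𝓞 K)).Nontrivial) ∧
      ∀ a : AlgebraicClosure F, a ^ 2 = algebraMap F (AlgebraicClosure F) α →
        finrank K (IntermediateField.adjoin K {a}) = 2 ∧
        ∀ p ∈ P, ∀ _ : Fact p.Prime,
          SigmaLeopoldt K (IntermediateField.adjoin K {a}) (AlgebraicClosure F) p ℂ_[p]}.Infinite := by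
  classical
  obtain ⟨σ₁, hσ₁⟩ := hpos
  obtain ⟨σ₂, hσ₂⟩ := hneg
  have hne : σ₁ ≠ σ₂ := by
    rintro rfl
    linarith
  have hαns : ∀ r : F, r ^ 2 ≠ α := by
    intro r hr
    rw [← hr, map_pow] at hσ₂
    exact absurd hσ₂ (not_lt.2 (sq_nonneg _))
  obtain ⟨t, y, ht, hty, ht2⟩ := exists_pell α σ₁ hσ₁ hαns
  have hy0 : y ≠ 0 := by
    rintro rfl
    have h1 := congrArg σ₁ hty
    rw [map_sub, map_pow, map_ofNat, zero_pow two_ne_zero, mul_zero, map_zero] at h1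
    have h2 : |σ₁ t| ^ 2 = 4 := by rw [sq_abs]; linarith
    nlinarith [abs_nonneg (σ₁ t)]
  have hns : ∀ r : F, r ^ 2 ≠ t ^ 2 - 4 := by
    intro r hr
    apply hαns (r / y)
    rw [div_pow, hr, hty, mul_div_assoc, div_self (pow_ne_zero 2 hy0), mul_one]
  obtain ⟨θ, hθ⟩ := exists_theta F hd
  obtain ⟨j, n, hjn⟩ := exists_good F hd t ht hns σ₁ ht2 θ hθ P
  have hΛ0 : (j : F) + θ ≠ 0 := by
    intro h
    apply hθ (-(j : ℚ))
    rw [map_neg, map_natCast]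
    exact (eq_neg_of_add_eq_zero_right h).symm
  have hAint : IsIntegral ℤ ((t ^ 2 - 4) * ((j : F) + (θ : F)) ^ 2) := by
    refine IsIntegral.mul ?_ ((IsIntegral.add ?_ (RingOfIntegers.isIntegral_coe θ)).pow 2)
    · refine (ht.pow 2).sub ?_
      have h4 := isIntegral_algebraMap (R := ℤ) (A := F) (x := 4)
      rwa [map_ofNat] at h4
    · exact_mod_cast isIntegral_algebraMap (R := ℤ) (A := F) (x := j)
  obtain ⟨A, hA⟩ : ∃ A : 𝓞 F, (A : F) = (t ^ 2 - 4) * ((j : F) + (θ : F)) ^ 2 :=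
    ⟨⟨_, hAint⟩, rfl⟩
  have hσA : ∀ σ : F →+* ℝ, σ (A : F) = σ α * ((σ y) ^ 2 * (σ ((j : F) + θ)) ^ 2) := by
    intro σ
    rw [hA, hty]
    simp only [map_mul, map_pow]
    ring
  have hpos' : ∀ σ : F →+* ℝ, 0 < (σ y) ^ 2 * (σ ((j : F) + θ)) ^ 2 := by
    intro σ
    have h1 : σ y ≠ 0 := by rwa [Ne, map_eq_zero]
    have h2 : σ ((j : F) + θ) ≠ 0 := by rwa [Ne, map_eq_zero]
    positivity
  have hA1 : 0 < σ₁ (A : F) := by
    rw [hσA]; exact mul_pos hσ₁ (hpos' _)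
  have hA2 : σ₂ (A : F) < 0 := by
    rw [hσA]; exact mul_neg_of_neg_of_pos hσ₂ (hpos' _)
  set Q : ℕ := ∏ p ∈ P with p.Prime, p with hQdef
  have hQ : 0 < Q := Finset.prod_pos fun p hp => (Finset.mem_filter.1 hp).2.pos
  have hpQ : ∀ p ∈ P, p.Prime → p ∣ Q := fun p hp hpp =>
    Finset.dvd_prod_of_mem (fun p => p) (Finset.mem_filter.2 ⟨hp, hpp⟩)
  -- the fields to avoid
  intro hfin
  have hgen : ∀ K : IntermediateField F (AlgebraicClosure F), ∃ d : 𝓞 F, d ≠ 0 ∧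
      (finrank F K = 2 → ∃ z : K, z ^ 2 = algebraMap F K (d : F) ∧
        ∀ q : F, algebraMap F K q ≠ z) := by
    intro K
    by_cases hK : finrank F K = 2
    · obtain ⟨z, d, h1, h2, h3⟩ := exists_integral_gen hK
      exact ⟨d, h3, fun _ => ⟨z, h1, h2⟩⟩
    · exact ⟨1, one_ne_zero, fun h => absurd h hK⟩
  choose dd hdd0 hdd using hgen
  obtain ⟨c, γ, κ, κ', hc, hD, hcγ, hcγ0, hDneg, hDT⟩ := exists_datum inferInstance hd σ₁ σ₂ A hA1
    hA2 Q n hQ (hfin.toFinset.image dd) (by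
      intro d hd
      obtain ⟨K, -, rfl⟩ := Finset.mem_image.1 hd
      exact hdd0 K)
  have hDns : ∀ q : F, q ^ 2 ≠ ((γ * (1 + c * γ) : 𝓞 F) : F) := by
    intro q hq
    have h1 := hDneg σ₁
    rw [← hq, map_pow] at h1
    exact absurd h1 (not_lt.2 (sq_nonneg _))
  obtain ⟨K, hK, x, hx⟩ := exists_quadratic (Ω := AlgebraicClosure F) _ hDns
  have hfdK : FiniteDimensional F K := FiniteDimensional.of_finrank_pos (by omega)
  have hNFK : NumberField K := NumberField.of_module_finite F K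
  have hTC : IsTotallyComplex K := isTotallyComplex_of_neg x _ hx hDneg
  have hαK : ∀ z : K, z ^ 2 ≠ algebraMap F K α := by
    intro z hz
    rcases sq_cases hK x _ hx hDns z α hz with ⟨b, -, hb⟩ | ⟨b, -, hb⟩
    · exact hαns b hb.symm
    · have h1 := congrArg σ₁ hb
      rw [map_mul, map_pow] at h1
      have h2 := hDneg σ₁
      have h3 : (σ₁ b) ^ 2 * σ₁ ((γ * (1 + c * γ) : 𝓞 F) : F) ≤ 0 :=
        mul_nonpos_of_nonneg_of_nonpos (sq_nonneg _) h2.le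
      linarith
  have hmem : K ∈ {K : IntermediateField F (AlgebraicClosure F) |
      finrank F K = 2 ∧ IsTotallyComplex K ∧
      (∀ p ∈ P, p.Prime → ∀ 𝔭 : Ideal (𝓞 F), 𝔭.IsPrime → (p : 𝓞 F) ∈ 𝔭 →
        (𝔭.primesOver (𝓞 K)).Nontrivial) ∧
      ∀ a : AlgebraicClosure F, a ^ 2 = algebraMap F (AlgebraicClosure F) α →
        finrank K (IntermediateField.adjoin K {a}) = 2 ∧
        ∀ p ∈ P, ∀ _ : Fact p.Prime,
          SigmaLeopoldt K (IntermediateField.adjoin K {a}) (AlgebraicClosure F) p ℂ_[p]} := by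
    refine ⟨hK, hTC, ?_, ?_⟩
    · intro p hp hpp 𝔭 h𝔭 hp𝔭
      obtain ⟨Q', hQ'⟩ := hpQ p hp hpp
      obtain ⟨𝔮₁, 𝔮₂, h1, h2, h3, h4, h5⟩ := exists_two_primes hK p x _ hx hDns
        (2 ^ n * (Q' : 𝓞 F) * (Q : 𝓞 F) ^ (n + 1) * κ) (by
          rw [hD]
          change algebraMap (𝓞 F) F _ = 1 + 4 * (p : F) * algebraMap (𝓞 F) F _
          have h6 : (Q : F) = (p : F) * (Q' : F) := by
            rw [hQ']; push_cast; rfl
          simp only [map_add, map_mul, map_pow, map_ofNat, map_natCast, map_one]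
          have h7 : (2 * (Q : F)) ^ (n + 2) = 4 * 2 ^ n * (Q : F) ^ (n + 1) * (Q : F) := by ring
          rw [h7]
          nth_rewrite 2 [h6]
          ring) 𝔭 h𝔭 hp𝔭
      refine ⟨𝔮₁, ⟨h1, ⟨?_⟩⟩, 𝔮₂, ⟨h2, ⟨?_⟩⟩, h3⟩
      · rw [Ideal.under_def]; exact h4.symm
      · rw [Ideal.under_def]; exact h5.symm
    · intro a ha
      have ha' : a ^ 2 = algebraMap K (AlgebraicClosure F) (algebraMap F K α) := by
        rw [ha, ← IsScalarTower.algebraMap_apply F K (AlgebraicClosure F)]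
      have haK : a ∉ (algebraMap K (AlgebraicClosure F)).range := by
        rintro ⟨z, rfl⟩
        rw [← map_pow] at ha'
        exact hαK z ((algebraMap K (AlgebraicClosure F)).injective ha')
      have hH : finrank K (IntermediateField.adjoin K {a}) = 2 := finrank_adjoin_sqrt ha' haK
      refine ⟨hH, ?_⟩
      intro p hp hpf
      obtain ⟨δ, hgood, hδ⟩ := hjn p hp hpf
      refine member hd hK hH p ℂ_[p] t y α ht hty hns σ₁ σ₂ hne θ j n Q hQ
        (hpQ p hp hpf.out) δ hgood hδ A c γ κ κ' hA hc hD hcγ hcγ0 x hx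
        ⟨a, IntermediateField.mem_adjoin_simple_self K a⟩ ?_ ?_
      · exact Subtype.ext ha'
      · intro q hq
        exact haK ⟨q, congrArg Subtype.val hq⟩
  obtain ⟨z, hz, hzF⟩ := hdd K hK
  rcases sq_cases hK x _ hx hDns z _ hz with ⟨b, hb, -⟩ | ⟨b, -, hb⟩
  · exact hzF b hb.symm
  · refine hDT (dd K) (Finset.mem_image.2 ⟨K, hfin.mem_toFinset.2 hmem, rfl⟩)
      (b * ((γ * (1 + c * γ) : 𝓞 F) : F)) ?_
    have h8 : ((γ * (1 + c * γ) * dd K : 𝓞 F) : F) = ((γ * (1 + c * γ) : 𝓞 F) : F) * (dd K : F) :=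
      map_mul (algebraMap (𝓞 F) F) _ _
    rw [h8, hb]
    ring

end Pool.Agent.Helper93.SL2
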